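import Mathlib

/-!
Regularity of the crossing probabilities of rectangles in the aspect ratio: two abstract lemmas
on limits.
-/

namespace D0H96.RG

open Filter Topology

/-- If functions with a uniform Taylor estimate converge, the derivatives converge. -/
theorem taylor_lim {u D : ℕ → ℝ → ℝ} {F : ℝ → ℝ} {x0 C : ℝ} {e : ℕ → ℝ} (hC : 0 ≤ C)
    (he : Tendsto e atTop (𝓝 0))
    (H : ∀ᶠ k in atTop, ∀ x y, x0 < x → x0 < y →
      |u k x - u k y - (y - x) * D k x| ≤ C * (y - x)^2 + e k)
    (hF : ∀ x, x0 < x → Tendsto (fun k => u k x) atTop (𝓝 (F x))) :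
    ∃ L : ℝ → ℝ, (∀ x, x0 < x → Tendsto (fun k => D k x) atTop (𝓝 (L x))) ∧
      ∀ x y, x0 < x → x0 < y → |F x - F y - (y - x) * L x| ≤ C * (y - x)^2 := by
  have key : ∀ x, x0 < x → ∃ l, Tendsto (fun k => D k x) atTop (𝓝 l) := by
    intro x hx
    apply cauchySeq_tendsto_of_complete
    rw [Metric.cauchySeq_iff']
    intro η hη
    obtain ⟨t, ht⟩ : ∃ t : ℝ, t = η / (8 * (C + 1)) := ⟨_, rfl⟩
    have ht0 : 0 < t := by rw [ht]; positivity
    have hCt : C * t ≤ η / 8 := by
      rw [ht]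
      rw [mul_div_assoc', div_le_div_iff₀ (by positivity) (by norm_num)]
      nlinarith
    have hxt : x0 < x + t := by linarith
    have hA : Tendsto (fun k => u k x - u k (x+t)) atTop (𝓝 (F x - F (x+t))) :=
      (hF x hx).sub (hF (x+t) hxt)
    have h1 : ∀ᶠ k in atTop, |(u k x - u k (x+t)) - (F x - F (x+t))| < η * t / 8 := by
      have := (Metric.tendsto_atTop.mp hA) (η * t / 8) (by positivity)
      obtain ⟨N, hN⟩ := this
      exact eventually_atTop.mpr ⟨N, fun k hk => by rw [← Real.dist_eq]; exact hN k hk⟩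
    have h2 : ∀ᶠ k in atTop, |e k| < η * t / 8 := by
      obtain ⟨N, hN⟩ := (Metric.tendsto_atTop.mp he) (η * t / 8) (by positivity)
      exact eventually_atTop.mpr ⟨N, fun k hk => by simpa [Real.dist_eq] using hN k hk⟩
    have h3 : ∀ᶠ k in atTop, |D k x - (F x - F (x+t)) / t| < η / 2 := by
      filter_upwards [H, h1, h2] with k a1 a2 a3
      have b1 := a1 x (x+t) hx hxt
      rw [add_sub_cancel_left] at b1
      have b2 : |t * D k x - (F x - F (x+t))| ≤ C * t^2 + η * t / 8 + η * t / 8 := by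
        have e1 : t * D k x - (F x - F (x+t)) = -(u k x - u k (x+t) - t * D k x) +
          ((u k x - u k (x+t)) - (F x - F (x+t))) := by ring
        rw [e1]
        refine (abs_add_le _ _).trans ?_
        rw [abs_neg]
        have := le_abs_self (e k)
        linarith
      have b3 : D k x - (F x - F (x+t)) / t = (t * D k x - (F x - F (x+t))) / t := by
        field_simp
      rw [b3, abs_div, abs_of_pos ht0, div_lt_iff₀ ht0]
      have b4 : C * t^2 ≤ η / 8 * t := by
        have := mul_le_mul_of_nonneg_right hCt ht0.le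
        nlinarith
      nlinarith
    obtain ⟨N, hN⟩ := eventually_atTop.mp h3
    refine ⟨N, fun k hk => ?_⟩
    rw [Real.dist_eq]
    have c1 := hN k hk
    have c2 := hN N le_rfl
    have e1 : D k x - D N x = (D k x - (F x - F (x+t)) / t) - (D N x - (F x - F (x+t)) / t) := by
      ring
    rw [e1]
    refine (abs_sub _ _).trans_lt ?_
    linarith
  choose! L hL using key
  refine ⟨L, hL, fun x y hx hy => ?_⟩
  have t1 : Tendsto (fun k => |u k x - u k y - (y - x) * D k x|) atTop
      (𝓝 |F x - F y - (y - x) * L x|) :=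
    (((hF x hx).sub (hF y hy)).sub ((hL x hx).const_mul (y - x))).abs
  have t2 : Tendsto (fun k => C * (y - x)^2 + e k) atTop (𝓝 (C * (y - x)^2 + 0)) :=
    tendsto_const_nhds.add he
  rw [add_zero] at t2
  exact le_of_tendsto_of_tendsto t1 t2 (H.mono (fun k hk => hk x y hx hy))

theorem deriv_of_taylor {F L : ℝ → ℝ} {x0 C x : ℝ} (hC : 0 ≤ C) (hx : x0 < x)
    (H : ∀ x y, x0 < x → x0 < y → |F x - F y - (y - x) * L x| ≤ C * (y - x)^2) :
    HasDerivAt F (-(L x)) x := by
  rw [hasDerivAt_iff_isLittleO]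
  have hO : (fun y => F y - F x - (y - x) • (-(L x))) =O[𝓝 x] (fun y => (y - x)^2) := by
    apply Asymptotics.IsBigO.of_bound C
    filter_upwards [Ioi_mem_nhds hx] with y hy
    have h1 := H x y hx hy
    rw [Real.norm_eq_abs, Real.norm_eq_abs, abs_of_nonneg (sq_nonneg (y - x))]
    have e : F y - F x - (y - x) • (-(L x)) = -(F x - F y - (y - x) * L x) := by
      rw [smul_eq_mul]; ring
    rw [e, abs_neg]
    exact h1
  refine hO.trans_isLittleO ?_
  have h2 : (fun y => (y - x)^2) =o[𝓝 x] (fun y => (y - x)) := by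
    have h3 : Tendsto (fun y => y - x) (𝓝 x) (𝓝 0) := by
      have : Tendsto (fun y => y - x) (𝓝 x) (𝓝 (x - x)) := (continuous_id.sub continuous_const).tendsto x
      rwa [sub_self] at this
    have h4 : (fun y : ℝ => (y - x) * (y - x)) =o[𝓝 x] (fun y => (y - x) * 1) := by
      apply Asymptotics.IsBigO.mul_isLittleO (Asymptotics.isBigO_refl _ _)
      rw [Asymptotics.isLittleO_one_iff]
      exact h3
    simpa [sq] using h4
  exact h2

theorem lip_of_taylor {F L : ℝ → ℝ} {x0 C : ℝ}
    (H : ∀ x y, x0 < x → x0 < y → |F x - F y - (y - x) * L x| ≤ C * (y - x)^2) {x y : ℝ}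
    (hx : x0 < x) (hy : x0 < y) : |L x - L y| ≤ 2 * C * |x - y| := by
  rcases eq_or_ne x y with rfl | hne
  · simp
  have h1 := H x y hx hy
  have h2 := H y x hy hx
  have h3 : |(y - x) * (L x - L y)| ≤ 2 * C * (y - x)^2 := by
    have e : (y - x) * (L x - L y) = -(F x - F y - (y - x) * L x) - (F y - F x - (x - y) * L y) := by
      ring
    rw [e]
    refine (abs_sub _ _).trans ?_
    rw [abs_neg]
    have e2 : (x - y)^2 = (y - x)^2 := by ring
    rw [e2] at h2
    linarith
  have h4 : 0 < |y - x| := abs_pos.mpr (sub_ne_zero.mpr hne.symm)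
  rw [abs_mul] at h3
  have h5 : (y - x)^2 = |y - x| * |y - x| := by rw [← abs_mul, abs_mul_self, sq]
  rw [h5] at h3
  have h6 : |y - x| * |L x - L y| ≤ |y - x| * (2 * C * |y - x|) := by linarith
  have h7 := le_of_mul_le_mul_left h6 h4
  rw [abs_sub_comm x y]
  exact h7

/-- Extraction of a subsequence for a countable family of bounded sequences. -/
theorem extract {ι : Type*} [Countable ι] (u : ℕ → ι → ℝ) (hu : ∀ k i, u k i ∈ Set.Icc (0:ℝ) 1) :
    ∃ φ : ℕ → ℕ, StrictMono φ ∧ ∀ i, ∃ l, Tendsto (fun k => u (φ k) i) atTop (𝓝 l) := by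
  let v : ℕ → (ι → Set.Icc (0:ℝ) 1) := fun k i => ⟨u k i, hu k i⟩
  obtain ⟨a, φ, hφ, ha⟩ := CompactSpace.tendsto_subseq v
  refine ⟨φ, hφ, fun i => ⟨a i, ?_⟩⟩
  have h1 := (tendsto_pi_nhds.mp ha) i
  have h2 := (continuous_subtype_val.tendsto (a i)).comp h1
  exact h2

end D0H96.RG
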