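import Pool.Agent.D0H96.RG.Cont
import Pool.Agent.H974R2.Infinite

/-!
Regularity of the crossing probabilities of rectangles in the aspect ratio: the bridge to the
infinite lattice (as in `Pool.Agent.TH291.NC.Rect` of the starting repository).
-/

set_option maxHeartbeats 1000000

namespace D0H96.RG

open H974 MeasureTheory

/-- The critical parameter. -/
noncomputable def half : unitInterval := ⟨1/2, by norm_num, by norm_num⟩

/-- The graph of the open edges with both ends in the rectangle `[0,w] × [0,h]`. -/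
def rectGraph (w h : ℕ) (ω : sqLattice.edgeSet → Bool) : SimpleGraph (ℤ × ℤ) :=
  SimpleGraph.fromEdgeSet {e | (∃ he : e ∈ sqLattice.edgeSet, ω ⟨e, he⟩ = true) ∧
    ∀ v ∈ e, (0 ≤ v.1 ∧ v.1 ≤ w) ∧ (0 ≤ v.2 ∧ v.2 ≤ h)}

/-- An open path of the rectangle `[0,w] × [0,h]` joins its left side to its right side. -/
def Crossed (w h : ℕ) (ω : sqLattice.edgeSet → Bool) : Prop :=
  ∃ y z : ℤ, (0 ≤ y ∧ y ≤ h) ∧ (0 ≤ z ∧ z ≤ h) ∧ (rectGraph w h ω).Reachable (0, y) ((w : ℤ), z)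

theorem rectGraph_adj (w h : ℕ) (ω : sqLattice.edgeSet → Bool) (u v : ℤ × ℤ) :
    (rectGraph w h ω).Adj u v ↔ H974.Adj ((opn ω) ∩ ↑(RE 0 w 0 h)) u v := by
  have inbox : ∀ e : Edg, e ∈ RE 0 w 0 h ↔
      (((0 ≤ (src e).1 ∧ (src e).1 ≤ (w:ℤ)) ∧ (0 ≤ (src e).2 ∧ (src e).2 ≤ (h:ℤ))) ∧
        ((0 ≤ (tgt e).1 ∧ (tgt e).1 ≤ (w:ℤ)) ∧ (0 ≤ (tgt e).2 ∧ (tgt e).2 ≤ (h:ℤ)))) := by
    rintro ⟨x, y, _ | _⟩
    · rw [mem_RE_false, src_mk, tgt_false]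
      simp only
      omega
    · rw [mem_RE_true, src_mk, tgt_true]
      simp only
      omega
  have inb2 : ∀ a b : ℤ × ℤ, (∀ v ∈ s(a, b), (0 ≤ v.1 ∧ v.1 ≤ (w:ℤ)) ∧ (0 ≤ v.2 ∧ v.2 ≤ (h:ℤ))) ↔
      (((0 ≤ a.1 ∧ a.1 ≤ (w:ℤ)) ∧ (0 ≤ a.2 ∧ a.2 ≤ (h:ℤ))) ∧
        ((0 ≤ b.1 ∧ b.1 ≤ (w:ℤ)) ∧ (0 ≤ b.2 ∧ b.2 ≤ (h:ℤ)))) := by
    intro a b
    constructor
    · intro h; exact ⟨h a (Sym2.mem_mk_left _ _), h b (Sym2.mem_mk_right _ _)⟩
    · rintro ⟨h1, h2⟩ w hw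
      rcases Sym2.mem_iff.mp hw with rfl | rfl
      · exact h1
      · exact h2
  unfold rectGraph
  rw [SimpleGraph.fromEdgeSet_adj]
  constructor
  · rintro ⟨⟨⟨he, hω⟩, hbox⟩, -⟩
    obtain ⟨e, hc⟩ := adj_edge (show sqLattice.Adj u v from (SimpleGraph.mem_edgeSet _).mp he)
    have hs : s(src e, tgt e) = s(u, v) := by
      rcases hc with ⟨h1, h2⟩ | ⟨h1, h2⟩
      · rw [h1, h2]
      · rw [h1, h2]; exact Sym2.eq_swap
    have ht : toE e = ⟨s(u, v), he⟩ := Subtype.ext hs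
    refine ⟨e, ⟨?_, ?_⟩, hc⟩
    · show ω (toE e) = true
      rw [ht]; exact hω
    · rw [Finset.mem_coe, inbox, ← inb2, hs]; exact hbox
  · rintro ⟨e, ⟨he, hb⟩, hcase⟩
    have hs : s(u, v) = s(src e, tgt e) := by
      rcases hcase with ⟨h1, h2⟩ | ⟨h1, h2⟩
      · rw [h1, h2]
      · rw [h1, h2]; exact Sym2.eq_swap
    refine ⟨?_, ?_⟩
    · show (∃ he : s(u, v) ∈ sqLattice.edgeSet, ω ⟨s(u, v), he⟩ = true) ∧
        ∀ x ∈ s(u, v), (0 ≤ x.1 ∧ x.1 ≤ (w:ℤ)) ∧ (0 ≤ x.2 ∧ x.2 ≤ (h:ℤ))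
      rw [hs]
      refine ⟨⟨edge_mem e, he⟩, ?_⟩
      rw [inb2, ← inbox]; exact Finset.mem_coe.mp hb
    · rintro rfl
      exact Adj_irrefl (⟨e, he, hcase⟩ : H974.Adj (opn ω) u u)

theorem rectGraph_reach (w h : ℕ) (ω : sqLattice.edgeSet → Bool) (u v : ℤ × ℤ) :
    (rectGraph w h ω).Reachable u v ↔ Reach ((opn ω) ∩ ↑(RE 0 w 0 h)) u v := by
  rw [SimpleGraph.reachable_iff_reflTransGen]
  have : (rectGraph w h ω).Adj = H974.Adj ((opn ω) ∩ ↑(RE 0 w 0 h)) := by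
    funext u v
    exact propext (rectGraph_adj w h ω u v)
  rw [this]
  rfl

theorem cross_eq' (p : unitInterval) {w : ℕ} (h : ℕ) (hw : 1 ≤ w) :
    (bondLaw p).real {ω | Crossed w h ω} = hh p w h := by
  have e : {ω | Crossed w h ω} =
      {ω : sqLattice.edgeSet → Bool | LRc 0 w 0 h (FF (LRE 0 w 0 h) ω)} := by
    ext ω
    have hF : (↑(FF (LRE 0 w 0 h) ω) : Set Edg) = (opn ω) ∩ ↑(LRE 0 w 0 h) :=
      FF_coe (LRE 0 w 0 h) ω
    show Crossed w h ω ↔ LRc 0 w 0 h (FF (LRE 0 w 0 h) ω)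
    constructor
    · rintro ⟨y, z, hy, hz, hr⟩
      have hr' := (rectGraph_reach w h ω _ _).mp hr
      obtain ⟨y1, y2, h1, h2, h3, -⟩ := sub_LR (a := 0) (b := (w:ℤ)) (c := 0) (d := (h:ℤ))
        (by exact_mod_cast hw)
        (fun x y hG _ _ => by
          have h4 := Finset.mem_coe.mp hG.2
          rw [mem_RE_true] at h4
          omega)
        (fun x y hG _ _ => by
          have h4 := Finset.mem_coe.mp hG.2
          rw [mem_RE_false] at h4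
          omega) hr' le_rfl le_rfl
      refine ⟨y1, y2, h1, h2, Reach.mono ?_ h3⟩
      rintro e ⟨⟨h4, -⟩, h5⟩
      exact ⟨(Set.ext_iff.mp hF e).mpr ⟨h4, h5⟩, h5⟩
    · rintro ⟨y, z, hy, hz, hr⟩
      refine ⟨y, z, hy, hz, (rectGraph_reach w h ω _ _).mpr (Reach.mono ?_ hr)⟩
      rintro e ⟨h4, h5⟩
      exact ⟨((Set.ext_iff.mp hF e).mp h4).1, by exact_mod_cast LRE_subset_RE (Finset.mem_coe.mp h5)⟩
  rw [e]
  exact law_event p (LRE 0 w 0 h) (LRc 0 w 0 h)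

theorem cross_eq (w h : ℕ) : (bondLaw half).real {ω | Crossed w h ω} = P w h := by
  have e : ((half : unitInterval) : ℝ) = 1/2 := rfl
  rcases Nat.eq_zero_or_pos w with hw | hw
  · subst hw
    have h1 : {ω : sqLattice.edgeSet → Bool | Crossed 0 h ω} = Set.univ := by
      ext ω
      simp only [Set.mem_univ, iff_true]
      exact ⟨0, 0, ⟨le_rfl, by positivity⟩, ⟨le_rfl, by positivity⟩, SimpleGraph.Reachable.refl _⟩
    rw [h1]
    have h2 : (bondLaw half).real Set.univ = 1 := by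
      unfold bondLaw
      rw [measureReal_def, measure_univ, ENNReal.toReal_one]
    rw [h2]
    unfold P hh
    rw [Pr_true]
    intro F _
    exact ⟨0, 0, ⟨le_rfl, by positivity⟩, ⟨le_rfl, by positivity⟩, Reach.refl _ _⟩
  · rw [cross_eq' half h hw, e]
    rfl

end D0H96.RG
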