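import Pool.Agent.D0H96.RG.Str

/-!
Regularity of the crossing probabilities of rectangles in the aspect ratio: the scaling limits are
continuously differentiable.
-/

set_option maxHeartbeats 1000000

namespace D0H96.RG

open Filter Topology

variable {δ : ℕ → ℝ} {F : ℝ → ℝ → ℝ}

theorem lim_taylor {K : ℕ} {c C : ℝ} (hK : 1 ≤ K) (hC : 0 < C)
    (H : ∀ m n : ℕ, 1 ≤ n → n ≤ 4 * K * m →
      c * P m n ≤ n * (P m n - P (m+1) n) ∧ n * (P m n - P (m+1) n) ≤ C * P m n ∧
      (n:ℝ)^2 * |P m n - 2 * P (m+1) n + P (m+2) n| ≤ C * P m n)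
    (hL : IsLim δ F) {a a' b : ℝ} (ha : 0 < a) (ha' : 0 < a') (hb : 0 < b) (hab : b ≤ K * a)
    (hab' : b ≤ K * a') :
    |F a b - F a' b + (a' - a) * deriv (fun x => F x b) a| ≤ 8 * C / b^2 * (a' - a)^2 := by
  have hKr : (1:ℝ) ≤ K := by exact_mod_cast hK
  have hD := (width_deriv hL ha hb).2
  obtain ⟨L, hL1, hL2⟩ := width_struct hC (fun m n h1 h2 => (H m n h1 h2).2.1)
    (fun m n h1 h2 => (H m n h1 h2).2.2) hL (K := 4 * K) (x0 := b / (2 * K)) (by positivity) hb
    (by push_cast; rw [mul_div_assoc', le_div_iff₀ (by positivity)]; nlinarith)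
  have x1 : b / (2 * K) < a := by
    rw [div_lt_iff₀ (by positivity)]; nlinarith
  have x2 : b / (2 * K) < a' := by
    rw [div_lt_iff₀ (by positivity)]; nlinarith
  have e1 : L a = -deriv (fun x => F x b) a := tendsto_nhds_unique (hL1 a x1) hD
  have h3 := hL2 a a' x1 x2
  rw [e1] at h3
  have e3 : F a b - F a' b + (a' - a) * deriv (fun x => F x b) a =
    F a b - F a' b - (a' - a) * -deriv (fun x => F x b) a := by ring
  rw [e3]
  exact h3

theorem deriv_cont (hL : IsLim δ F) {a0 b0 : ℝ} (ha0 : 0 < a0) (hb0 : 0 < b0) :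
    ContinuousAt (fun z : ℝ × ℝ => deriv (fun x => F x z.2) z.1) (a0, b0) := by
  obtain ⟨K, hK⟩ := exists_nat_ge (4 * b0 / a0)
  rw [div_le_iff₀ ha0] at hK
  have hKpos : 1 ≤ K := by
    rcases Nat.eq_zero_or_pos K with h | h
    · rw [h] at hK; simp only [Nat.cast_zero, zero_mul] at hK; linarith
    · exact h
  have hKr : (1:ℝ) ≤ K := by exact_mod_cast hKpos
  obtain ⟨c, C, hc, hC, H⟩ := mainP (4 * K) (by omega)
  rw [Metric.continuousAt_iff]
  intro η hη
  obtain ⟨t, ht⟩ : ∃ t : ℝ, t = η * b0^2 / (512 * C) := ⟨_, rfl⟩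
  have t0 : 0 < t := by rw [ht]; positivity
  have hct : ∀ b : ℝ, b0 / 2 < b → 8 * C / b^2 * t^2 ≤ η / 16 * t := by
    intro b hb
    have h1 : 8 * C / b^2 ≤ 8 * C / (b0/2)^2 := by
      apply div_le_div_of_nonneg_left (by positivity) (by positivity)
      exact pow_le_pow_left₀ (by positivity) hb.le 2
    have h2 : 8 * C / (b0/2)^2 * t = η / 16 := by
      rw [ht]; field_simp; norm_num
    have h3 : 8 * C / b^2 * t^2 ≤ 8 * C / (b0/2)^2 * t^2 :=
      mul_le_mul_of_nonneg_right h1 (by positivity)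
    have h4 : 8 * C / (b0/2)^2 * t^2 = (8 * C / (b0/2)^2 * t) * t := by ring
    rw [h4, h2] at h3
    exact h3
  have c1 : ContinuousAt (fun y => F a0 y) b0 := (height_deriv hL ha0 hb0).1.continuousAt
  have c2 : ContinuousAt (fun y => F (a0 + t) y) b0 :=
    (height_deriv hL (by linarith) hb0).1.continuousAt
  obtain ⟨r1, hr1, h1⟩ := Metric.continuousAt_iff.mp c1 (η * t / 16) (by positivity)
  obtain ⟨r2, hr2, h2⟩ := Metric.continuousAt_iff.mp c2 (η * t / 16) (by positivity)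
  obtain ⟨r, hr⟩ : ∃ r : ℝ, r = min (min r1 r2) (min (min (a0/2) (b0/2)) (η * b0^2 / (128 * C))) :=
    ⟨_, rfl⟩
  have r0 : 0 < r := by
    rw [hr]
    exact lt_min (lt_min hr1 hr2) (lt_min (lt_min (by positivity) (by positivity)) (by positivity))
  have q1 : r ≤ r1 := by rw [hr]; exact (min_le_left _ _).trans (min_le_left _ _)
  have q2 : r ≤ r2 := by rw [hr]; exact (min_le_left _ _).trans (min_le_right _ _)
  have q3 : r ≤ a0/2 := by
    rw [hr]; exact (min_le_right _ _).trans ((min_le_left _ _).trans (min_le_left _ _))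
  have q4 : r ≤ b0/2 := by
    rw [hr]; exact (min_le_right _ _).trans ((min_le_left _ _).trans (min_le_right _ _))
  have q5 : r ≤ η * b0^2 / (128 * C) := by rw [hr]; exact (min_le_right _ _).trans (min_le_right _ _)
  refine ⟨r, r0, ?_⟩
  rintro ⟨a, b⟩ hd
  rw [Prod.dist_eq, max_lt_iff] at hd
  simp only [Real.dist_eq] at hd ⊢
  obtain ⟨da, db⟩ := hd
  have da' := abs_lt.mp da
  have db' := abs_lt.mp db
  have hb : b0/2 < b := by linarith
  have hb' : b < 2 * b0 := by linarith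
  have ha : a0/2 < a := by linarith
  have bpos : 0 < b := by linarith
  have apos : 0 < a := by linarith
  have k0 : b ≤ K * a0 := by linarith
  have k1 : b ≤ K * a := by nlinarith
  have k2 : b ≤ K * (a0 + t) := by nlinarith
  have k3 : b0 ≤ K * a0 := by linarith
  have k4 : b0 ≤ K * (a0 + t) := by nlinarith
  -- step 1: move `a`
  have s1 := (lim_bounds hKpos hC H hL apos bpos k1).2.2 a0 ha0 k0
  have s1' : 16 * C * |a - a0| / b^2 ≤ η / 2 := by
    have h3 : 16 * C * |a - a0| / b^2 ≤ 16 * C * r / (b0/2)^2 := by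
      apply div_le_div₀ (by positivity) _ (by positivity)
      · exact pow_le_pow_left₀ (by positivity) hb.le 2
      · exact mul_le_mul_of_nonneg_left da.le (by positivity)
    have h4 : 16 * C * r / (b0/2)^2 ≤ 16 * C * (η * b0^2 / (128 * C)) / (b0/2)^2 := by
      apply div_le_div_of_nonneg_right _ (by positivity)
      exact mul_le_mul_of_nonneg_left q5 (by positivity)
    have h5 : 16 * C * (η * b0^2 / (128 * C)) / (b0/2)^2 = η / 2 := by
      field_simp; norm_num
    linarith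
  -- step 2: move `b`
  have u1 := lim_taylor hKpos hC H hL ha0 (by linarith : 0 < a0 + t) bpos k0 k2
  have u2 := lim_taylor hKpos hC H hL ha0 (by linarith : 0 < a0 + t) hb0 k3 k4
  rw [add_sub_cancel_left] at u1 u2
  have v1 := hct b hb
  have v2 := hct b0 (by linarith)
  have w1 := h1 (show dist b b0 < r1 by rw [Real.dist_eq]; linarith)
  have w2 := h2 (show dist b b0 < r2 by rw [Real.dist_eq]; linarith)
  rw [Real.dist_eq] at w1 w2
  have s2 : |deriv (fun x => F x b) a0 - deriv (fun x => F x b0) a0| < η / 2 := by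
    have h3 : |t * (deriv (fun x => F x b) a0 - deriv (fun x => F x b0) a0)| < t * (η / 2) := by
      obtain ⟨A, hA⟩ : ∃ A : ℝ, A = deriv (fun x => F x b) a0 := ⟨_, rfl⟩
      obtain ⟨B, hB⟩ : ∃ B : ℝ, B = deriv (fun x => F x b0) a0 := ⟨_, rfl⟩
      rw [← hA] at u1 ⊢
      rw [← hB] at u2 ⊢
      have a1 := abs_le.mp (u1.trans v1)
      have a2 := abs_le.mp (u2.trans v2)
      have a3 := abs_lt.mp w1
      have a4 := abs_lt.mp w2
      have p1 : 0 < η * t := by positivity
      rw [abs_lt]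
      constructor <;> nlinarith
    rw [abs_mul, abs_of_pos t0] at h3
    exact lt_of_mul_lt_mul_left h3 t0.le
  have e : deriv (fun x => F x b) a - deriv (fun x => F x b0) a0 =
    (deriv (fun x => F x b) a - deriv (fun x => F x b) a0) +
      (deriv (fun x => F x b) a0 - deriv (fun x => F x b0) a0) := by ring
  rw [e]
  refine (abs_add_le _ _).trans_lt ?_
  linarith

theorem deriv_dual (hL : IsLim δ F) {a b : ℝ} (ha : 0 < a) (hb : 0 < b) :
    deriv (fun y => F a y) b = -deriv (fun x => F x a) b := by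
  have h1 : (fun y => F a y) =ᶠ[𝓝 b] (fun y => 1 - F y a) := by
    filter_upwards [lt_mem_nhds hb] with y hy
    have := lim_dual hL ha hy
    linarith
  rw [h1.deriv_eq, deriv_const_sub]

theorem quad_open : IsOpen {z : ℝ × ℝ | 0 < z.1 ∧ 0 < z.2} :=
  (isOpen_lt continuous_const continuous_fst).inter (isOpen_lt continuous_const continuous_snd)

theorem contDiff (hL : IsLim δ F) :
    ContDiffOn ℝ 1 (fun z : ℝ × ℝ => F z.1 z.2) {z | 0 < z.1 ∧ 0 < z.2} := by
  obtain ⟨f1, hf1⟩ : ∃ f1 : ℝ → ℝ → ℝ →L[ℝ] ℝ, f1 = fun a b =>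
    ContinuousLinearMap.toSpanSingleton ℝ (deriv (fun x => F x b) a) := ⟨_, rfl⟩
  obtain ⟨f2, hf2⟩ : ∃ f2 : ℝ → ℝ → ℝ →L[ℝ] ℝ, f2 = fun a b =>
    ContinuousLinearMap.toSpanSingleton ℝ (deriv (fun y => F a y) b) := ⟨_, rfl⟩
  have hsp : Continuous (fun c : ℝ => ContinuousLinearMap.toSpanSingleton ℝ c) := by
    have := (ContinuousLinearMap.toSpanSingletonCLE (𝕜 := ℝ) (E := ℝ)).continuous
    exact this
  have cf1 : ∀ z : ℝ × ℝ, 0 < z.1 ∧ 0 < z.2 → ContinuousAt (fun z : ℝ × ℝ => f1 z.1 z.2) z := by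
    rintro ⟨a, b⟩ hz
    have := deriv_cont hL hz.1 hz.2
    rw [hf1]
    exact hsp.continuousAt.comp this
  have cf2 : ∀ z : ℝ × ℝ, 0 < z.1 ∧ 0 < z.2 → ContinuousAt (fun z : ℝ × ℝ => f2 z.1 z.2) z := by
    rintro ⟨a, b⟩ hz
    have h1 := (deriv_cont hL hz.2 hz.1).comp_of_eq (f := Prod.swap) (x := ((a, b) : ℝ × ℝ))
      continuous_swap.continuousAt rfl
    have h2 : (fun z : ℝ × ℝ => deriv (fun y => F z.1 y) z.2) =ᶠ[𝓝 (a, b)]
        (fun z : ℝ × ℝ => -deriv (fun x => F x z.1) z.2) := by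
      filter_upwards [quad_open.mem_nhds hz] with z hz'
      exact deriv_dual hL hz'.1 hz'.2
    have h3 : ContinuousAt (fun z : ℝ × ℝ => deriv (fun y => F z.1 y) z.2) (a, b) :=
      (h1.neg).congr h2.symm
    rw [hf2]
    exact hsp.continuousAt.comp h3
  have hd : ∀ z : ℝ × ℝ, 0 < z.1 ∧ 0 < z.2 →
      HasStrictFDerivAt (fun z : ℝ × ℝ => F z.1 z.2) ((f1 z.1 z.2).coprod (f2 z.1 z.2)) z := by
    intro z hz
    refine hasStrictFDerivAt_uncurry_coprod (f := F) (f₁ := f1) (f₂ := f2) ?_ ?_ (cf1 z hz)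
      (cf2 z hz)
    · filter_upwards [quad_open.mem_nhds hz] with v hv
      have := (width_deriv hL hv.1 hv.2).1.hasDerivAt.hasFDerivAt
      rw [hf1]
      exact this
    · filter_upwards [quad_open.mem_nhds hz] with v hv
      have := (height_deriv hL hv.1 hv.2).1.hasDerivAt.hasFDerivAt
      rw [hf2]
      exact this
  have h01 : (1 : WithTop ℕ∞) = 0 + 1 := by norm_num
  rw [h01, contDiffOn_succ_iff_fderiv_of_isOpen quad_open]
  refine ⟨fun z hz => (hd z hz).hasFDerivAt.differentiableAt.differentiableWithinAt,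
    fun h => absurd h (by simp), ?_⟩
  rw [contDiffOn_zero]
  intro z hz
  apply ContinuousAt.continuousWithinAt
  have h1 : ContinuousAt (fun z : ℝ × ℝ => (f1 z.1 z.2).coprod (f2 z.1 z.2)) z := by
    have h2 : (fun z : ℝ × ℝ => (f1 z.1 z.2).coprod (f2 z.1 z.2)) =
        fun z : ℝ × ℝ => (f1 z.1 z.2).comp (ContinuousLinearMap.fst ℝ ℝ ℝ) +
          (f2 z.1 z.2).comp (ContinuousLinearMap.snd ℝ ℝ ℝ) := by
      funext z
      ext <;> simp
    rw [h2]
    exact ((cf1 z hz).clm_comp continuousAt_const).add ((cf2 z hz).clm_comp continuousAt_const)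
  refine h1.congr ?_
  filter_upwards [quad_open.mem_nhds hz] with v hv
  exact (hd v hv).hasFDerivAt.fderiv.symm

end D0H96.RG
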