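import Pool.Agent.D0H96.RG.Main

/-!
Regularity of the crossing probabilities of rectangles in the aspect ratio: discrete consequences.
-/

set_option maxHeartbeats 1000000

namespace D0H96.RG

open H974 Finset

/-- The crossing probability of `[0, m] × [0, n]`. -/
noncomputable def P (m n : ℕ) : ℝ := hh (1/2) m n

theorem P_nonneg (m n : ℕ) : 0 ≤ P m n := hh_nonneg h0' h1' _ _

theorem P_le_one (m n : ℕ) : P m n ≤ 1 := hh_le_one h0' h1' _ _

theorem P_dual {m n : ℕ} (hm : 1 ≤ m) : P m n = 1 - P (n+1) (m-1) := by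
  unfold P
  rw [hh_dual (q := 1/2) (by omega) (by omega)]
  have e1 : (1:ℝ) - 1/2 = 1/2 := by norm_num
  rw [e1]
  push_cast [Nat.cast_sub hm]
  rfl

theorem P_mono {m m' n n' : ℕ} (hm : 1 ≤ m) (hmm : m ≤ m') (hn : n' ≤ n) : P m' n' ≤ P m n :=
  hh_mono h0' h1' (by omega) (by exact_mod_cast hmm) (by exact_mod_cast hn)

/-- The main estimates for natural numbers. -/
theorem mainP (K : ℕ) (hK : 1 ≤ K) : ∃ c C : ℝ, 0 < c ∧ 0 < C ∧ ∀ m n : ℕ, 1 ≤ n → n ≤ K * m →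
    c * P m n ≤ n * (P m n - P (m+1) n) ∧ n * (P m n - P (m+1) n) ≤ C * P m n ∧
    (n:ℝ)^2 * |P m n - 2 * P (m+1) n + P (m+2) n| ≤ C * P m n := by
  obtain ⟨c, C, hc, hC, H⟩ := main K hK
  refine ⟨c, C, hc, hC, fun m n hn hm => ?_⟩
  have := H m n (by exact_mod_cast hn) (by exact_mod_cast hm)
  unfold P
  push_cast
  exact this

/-- The first difference. -/
noncomputable def Q (m n : ℕ) : ℝ := P m n - P (m+1) n

theorem Q_lip {K : ℕ} {C : ℝ} (H : ∀ m n : ℕ, 1 ≤ n → n ≤ K * m →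
    (n:ℝ)^2 * |P m n - 2 * P (m+1) n + P (m+2) n| ≤ C * P m n) (hC : 0 < C) {m n : ℕ}
    (hn : 1 ≤ n) (hm : n ≤ K * m) (j : ℕ) : |Q (m+j) n - Q m n| ≤ C * j / (n:ℝ)^2 := by
  have hn0 : (0:ℝ) < n := by exact_mod_cast hn
  induction j with
  | zero => simp
  | succ j ih =>
    have h1 := H (m+j) n hn (hm.trans (Nat.mul_le_mul_left _ (by omega)))
    have h2 : |Q (m+j+1) n - Q (m+j) n| ≤ C / (n:ℝ)^2 := by
      rw [le_div_iff₀ (by positivity)]
      have e : Q (m+j+1) n - Q (m+j) n = -(P (m+j) n - 2 * P (m+j+1) n + P (m+j+2) n) := by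
        unfold Q
        have : m + j + 1 + 1 = m + j + 2 := by ring
        rw [this]; ring
      rw [e, abs_neg, mul_comm]
      refine h1.trans ?_
      have := P_le_one (m+j) n
      nlinarith
    have h3 : |Q (m+(j+1)) n - Q m n| ≤ |Q (m+j+1) n - Q (m+j) n| + |Q (m+j) n - Q m n| :=
      abs_sub_le _ _ _
    refine h3.trans ((add_le_add h2 ih).trans (le_of_eq ?_))
    push_cast
    ring

theorem sum_Q (m n j : ℕ) : P m n - P (m+j) n = ∑ i ∈ Finset.range j, Q (m+i) n := by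
  induction j with
  | zero => simp
  | succ j ih =>
    rw [Finset.sum_range_succ, ← ih]
    unfold Q
    have : m + (j+1) = m + j + 1 := by ring
    rw [this]; ring

/-- Taylor estimate at the left end. -/
theorem taylor_left {K : ℕ} {C : ℝ} (H : ∀ m n : ℕ, 1 ≤ n → n ≤ K * m →
    (n:ℝ)^2 * |P m n - 2 * P (m+1) n + P (m+2) n| ≤ C * P m n) (hC : 0 < C) {m n : ℕ}
    (hn : 1 ≤ n) (hm : n ≤ K * m) (j : ℕ) :
    |P m n - P (m+j) n - j * Q m n| ≤ C * (j:ℝ)^2 / (n:ℝ)^2 := by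
  have hn0 : (0:ℝ) < n := by exact_mod_cast hn
  have e : P m n - P (m+j) n - j * Q m n = ∑ i ∈ Finset.range j, (Q (m+i) n - Q m n) := by
    rw [sum_Q, Finset.sum_sub_distrib, Finset.sum_const, Finset.card_range, nsmul_eq_mul]
  rw [e]
  refine (Finset.abs_sum_le_sum_abs _ _).trans ?_
  have h1 : ∀ i ∈ Finset.range j, |Q (m+i) n - Q m n| ≤ C * j / (n:ℝ)^2 := by
    intro i hi
    rw [Finset.mem_range] at hi
    refine (Q_lip H hC hn hm i).trans ?_
    have : (i:ℝ) ≤ j := by exact_mod_cast hi.le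
    gcongr
  refine (Finset.sum_le_sum h1).trans (le_of_eq ?_)
  rw [Finset.sum_const, Finset.card_range, nsmul_eq_mul]
  ring

/-- Taylor estimate at the right end. -/
theorem taylor_right {K : ℕ} {C : ℝ} (H : ∀ m n : ℕ, 1 ≤ n → n ≤ K * m →
    (n:ℝ)^2 * |P m n - 2 * P (m+1) n + P (m+2) n| ≤ C * P m n) (hC : 0 < C) {m n : ℕ}
    (hn : 1 ≤ n) (hm : n ≤ K * m) (j : ℕ) :
    |P m n - P (m+j) n - j * Q (m+j) n| ≤ C * (j:ℝ)^2 / (n:ℝ)^2 := by
  have hn0 : (0:ℝ) < n := by exact_mod_cast hn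
  have e : P m n - P (m+j) n - j * Q (m+j) n =
      ∑ i ∈ Finset.range j, (Q (m+i) n - Q (m+j) n) := by
    rw [sum_Q, Finset.sum_sub_distrib, Finset.sum_const, Finset.card_range, nsmul_eq_mul]
  rw [e]
  refine (Finset.abs_sum_le_sum_abs _ _).trans ?_
  have h1 : ∀ i ∈ Finset.range j, |Q (m+i) n - Q (m+j) n| ≤ C * j / (n:ℝ)^2 := by
    intro i hi
    rw [Finset.mem_range] at hi
    have h2 := Q_lip H hC hn (hm.trans (Nat.mul_le_mul_left _ (Nat.le_add_right m i))) (j-i)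
    have e2 : m + i + (j - i) = m + j := by omega
    rw [e2, abs_sub_comm] at h2
    refine h2.trans ?_
    have : ((j-i : ℕ):ℝ) ≤ j := by exact_mod_cast Nat.sub_le _ _
    gcongr
  refine (Finset.sum_le_sum h1).trans (le_of_eq ?_)
  rw [Finset.sum_const, Finset.card_range, nsmul_eq_mul]
  ring

theorem Q_le {K : ℕ} {C : ℝ} (H : ∀ m n : ℕ, 1 ≤ n → n ≤ K * m →
    n * (P m n - P (m+1) n) ≤ C * P m n) (hC : 0 < C) {m n : ℕ}
    (hn : 1 ≤ n) (hm : n ≤ K * m) : Q m n ≤ C / n := by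
  have hn0 : (0:ℝ) < n := by exact_mod_cast hn
  rw [le_div_iff₀ hn0, mul_comm]
  have h1 := H m n hn hm
  have h2 := P_le_one m n
  unfold Q
  nlinarith

theorem Q_nonneg {m n : ℕ} (hm : 1 ≤ m) : 0 ≤ Q m n := by
  unfold Q
  have := P_mono (m := m) (m' := m+1) (n := n) (n' := n) hm (by omega) le_rfl
  linarith

/-- Lipschitz bound in the width. -/
theorem lip_width {K : ℕ} {C : ℝ} (H : ∀ m n : ℕ, 1 ≤ n → n ≤ K * m →
    n * (P m n - P (m+1) n) ≤ C * P m n) (hC : 0 < C) {m n : ℕ}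
    (hn : 1 ≤ n) (hm : n ≤ K * m) (j : ℕ) :
    P m n - P (m+j) n ≤ C * j / n := by
  rw [sum_Q]
  have h1 : ∀ i ∈ Finset.range j, Q (m+i) n ≤ C / n := by
    intro i _
    exact Q_le H hC hn (hm.trans (Nat.mul_le_mul_left _ (Nat.le_add_right m i)))
  refine (Finset.sum_le_sum h1).trans (le_of_eq ?_)
  rw [Finset.sum_const, Finset.card_range, nsmul_eq_mul]
  ring

end D0H96.RG
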