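import Pool.Agent.D0H96.RG.Lim

/-!
Regularity of the crossing probabilities of rectangles in the aspect ratio: scaling limits,
existence and structure.
-/

set_option maxHeartbeats 1000000

namespace D0H96.RG

open Filter Topology

theorem pd_mem (δ a b : ℝ) : pd δ a b ∈ Set.Icc (0:ℝ) 1 := ⟨P_nonneg _ _, P_le_one _ _⟩

/-- Monotonicity and oscillation of the crossing probability at mesh `δ`. -/
theorem osc (a b : ℝ) (ha : 0 < a) (hb : 0 < b) : ∃ C : ℝ, 0 < C ∧ ∀ δ a1 a2 b1 b2 : ℝ, 0 < δ →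
    δ ≤ a / 8 → δ ≤ b / 8 → a / 2 ≤ a1 → a1 ≤ a → a ≤ a2 → a2 ≤ 2 * a → b / 2 ≤ b1 → b1 ≤ b →
    b ≤ b2 → b2 ≤ 2 * b →
    pd δ a2 b1 ≤ pd δ a b ∧ pd δ a b ≤ pd δ a1 b2 ∧
      pd δ a1 b2 - pd δ a2 b1 ≤ C * ((a2 - a1) + (b2 - b1) + δ) := by
  obtain ⟨K, hK⟩ := exists_nat_ge (max (8 * b / a) (8 * a / b))
  have hK1 : 8 * b / a ≤ K := (le_max_left _ _).trans hK
  have hK2 : 8 * a / b ≤ K := (le_max_right _ _).trans hK
  rw [div_le_iff₀ ha] at hK1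
  rw [div_le_iff₀ hb] at hK2
  have hKpos : 1 ≤ K := by
    rcases Nat.eq_zero_or_pos K with h | h
    · rw [h] at hK1; simp only [Nat.cast_zero, zero_mul] at hK1; linarith
    · exact h
  obtain ⟨c, C, hc, hC, H⟩ := mainP K hKpos
  refine ⟨2 * C / b + 4 * C / a, by positivity, fun δ a1 a2 b1 b2 hδ hδa hδb h1 h2 h3 h4 h5 h6 h7 h8 => ?_⟩
  have ha1 : 0 < a1 := by linarith
  have hb1 : 0 < b1 := by linarith
  have hKr : (0:ℝ) ≤ K := by positivity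
  have o1 : 1 ≤ ⌊a1 / δ⌋₊ := one_le ha1 hδ (by linarith)
  have o2 : 1 ≤ ⌊b1 / δ⌋₊ := one_le hb1 hδ (by linarith)
  have la1 : ⌊a1 / δ⌋₊ ≤ ⌊a / δ⌋₊ := Nat.floor_mono (by gcongr)
  have la2 : ⌊a / δ⌋₊ ≤ ⌊a2 / δ⌋₊ := Nat.floor_mono (by gcongr)
  have lb1 : ⌊b1 / δ⌋₊ ≤ ⌊b / δ⌋₊ := Nat.floor_mono (by gcongr)
  have lb2 : ⌊b / δ⌋₊ ≤ ⌊b2 / δ⌋₊ := Nat.floor_mono (by gcongr)
  refine ⟨P_mono (by omega) la2 lb1, P_mono o1 la1 lb2, ?_⟩
  have r1 : ⌊b2 / δ⌋₊ ≤ K * ⌊a1 / δ⌋₊ := floor_ratio ha1 (by linarith) hδ (by linarith) (by nlinarith)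
  have r2 : ⌊a2 / δ⌋₊ ≤ K * ⌊b1 / δ⌋₊ := floor_ratio hb1 (by linarith) hδ (by linarith) (by nlinarith)
  have hA := half_le (x := a2) (by linarith) hδ (by linarith)
  have hB := half_le (x := b2) (by linarith) hδ (by linarith)
  have hA' : 4 ≤ a2 / (2 * δ) := by rw [le_div_iff₀ (by positivity)]; linarith
  have two : 2 ≤ ⌊a2 / δ⌋₊ := by
    have : (2:ℝ) ≤ ((⌊a2 / δ⌋₊ : ℕ) : ℝ) := by linarith
    exact_mod_cast this
  have O := osc_mesh hC (fun m n h1 h2 => (H m n h1 h2).2.1) (la1.trans la2) (lb1.trans lb2)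
    (by omega) two r1 r2
  have fa1 := flo ha1 hδ
  have fa2 := flo (x := a2) (by linarith) hδ
  have fb1 := flo hb1 hδ
  have fb2 := flo (x := b2) (by linarith) hδ
  have t1 : C * (((⌊a2 / δ⌋₊ : ℕ) : ℝ) - (⌊a1 / δ⌋₊ : ℕ)) / (⌊b2 / δ⌋₊ : ℕ) ≤
      2 * C / b * ((a2 - a1) + δ) := by
    have u1 : ((⌊a2 / δ⌋₊ : ℕ) : ℝ) - (⌊a1 / δ⌋₊ : ℕ) ≤ (a2 - a1 + δ) / δ := by
      have : (a2 - a1 + δ) / δ = a2 / δ - a1 / δ + 1 := by field_simp
      linarith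
    have u2 : b / (2 * δ) ≤ ((⌊b2 / δ⌋₊ : ℕ) : ℝ) := by
      refine le_trans ?_ hB
      gcongr
    have u3 : 0 ≤ (a2 - a1 + δ) / δ := div_nonneg (by linarith) hδ.le
    calc C * (((⌊a2 / δ⌋₊ : ℕ) : ℝ) - (⌊a1 / δ⌋₊ : ℕ)) / (⌊b2 / δ⌋₊ : ℕ)
        ≤ C * ((a2 - a1 + δ) / δ) / (⌊b2 / δ⌋₊ : ℕ) := by gcongr
      _ ≤ C * ((a2 - a1 + δ) / δ) / (b / (2 * δ)) :=
          div_le_div_of_nonneg_left (by positivity) (by positivity) u2
      _ = 2 * C / b * ((a2 - a1) + δ) := by field_simp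
  have t2 : C * (((⌊b2 / δ⌋₊ : ℕ) : ℝ) - (⌊b1 / δ⌋₊ : ℕ)) / (((⌊a2 / δ⌋₊ : ℕ) : ℝ) - 1) ≤
      4 * C / a * ((b2 - b1) + δ) := by
    have u1 : ((⌊b2 / δ⌋₊ : ℕ) : ℝ) - (⌊b1 / δ⌋₊ : ℕ) ≤ (b2 - b1 + δ) / δ := by
      have : (b2 - b1 + δ) / δ = b2 / δ - b1 / δ + 1 := by field_simp
      linarith
    have u2 : a / (4 * δ) ≤ ((⌊a2 / δ⌋₊ : ℕ) : ℝ) - 1 := by
      have e1 : a2 / (2 * δ) = a2 / (4 * δ) + a2 / (4 * δ) := by field_simp; ring
      have e2 : a / (4 * δ) ≤ a2 / (4 * δ) := by gcongr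
      have e3 : 1 ≤ a2 / (4 * δ) := by rw [le_div_iff₀ (by positivity)]; linarith
      linarith
    have u3 : 0 ≤ (b2 - b1 + δ) / δ := div_nonneg (by linarith) hδ.le
    have u4 : 0 < a / (4 * δ) := by positivity
    calc C * (((⌊b2 / δ⌋₊ : ℕ) : ℝ) - (⌊b1 / δ⌋₊ : ℕ)) / (((⌊a2 / δ⌋₊ : ℕ) : ℝ) - 1)
        ≤ C * ((b2 - b1 + δ) / δ) / (((⌊a2 / δ⌋₊ : ℕ) : ℝ) - 1) := by
          apply div_le_div_of_nonneg_right _ (by linarith)
          exact mul_le_mul_of_nonneg_left u1 hC.le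
      _ ≤ C * ((b2 - b1 + δ) / δ) / (a / (4 * δ)) :=
          div_le_div_of_nonneg_left (by positivity) u4 u2
      _ = 4 * C / a * ((b2 - b1) + δ) := by field_simp
  have t3 : 2 * C / b * ((a2 - a1) + δ) ≤ 2 * C / b * ((a2 - a1) + (b2 - b1) + δ) :=
    mul_le_mul_of_nonneg_left (by linarith) (by positivity)
  have t4 : 4 * C / a * ((b2 - b1) + δ) ≤ 4 * C / a * ((a2 - a1) + (b2 - b1) + δ) :=
    mul_le_mul_of_nonneg_left (by linarith) (by positivity)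
  unfold pd
  nlinarith

/-- Existence of subsequential limits. -/
theorem exists_limit (δ : ℕ → ℝ) (hδ : ∀ k, 0 < δ k) (h0 : Tendsto δ atTop (𝓝 0)) :
    ∃ φ : ℕ → ℕ, StrictMono φ ∧ ∃ F : ℝ → ℝ → ℝ, ∀ a b : ℝ, 0 < a → 0 < b →
      Tendsto (fun k => pd (δ (φ k)) a b) atTop (𝓝 (F a b)) := by
  obtain ⟨φ, hφ, hr⟩ := extract (ι := ℚ × ℚ) (fun k i => pd (δ k) i.1 i.2) (fun k i => pd_mem _ _ _)
  refine ⟨φ, hφ, ?_⟩
  have key : ∀ a b : ℝ, 0 < a → 0 < b → ∃ l, Tendsto (fun k => pd (δ (φ k)) a b) atTop (𝓝 l) := by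
    intro a b ha hb
    apply cauchySeq_tendsto_of_complete
    rw [Metric.cauchySeq_iff']
    intro η hη
    obtain ⟨C, hC, H⟩ := osc a b ha hb
    obtain ⟨t, ht⟩ : ∃ t : ℝ, t = min (min (a/2) (b/2)) (η / (32 * C)) := ⟨_, rfl⟩
    have t1 : t ≤ a/2 := by rw [ht]; exact (min_le_left _ _).trans (min_le_left _ _)
    have t2 : t ≤ b/2 := by rw [ht]; exact (min_le_left _ _).trans (min_le_right _ _)
    have t3 : t ≤ η / (32 * C) := by rw [ht]; exact min_le_right _ _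
    have t0 : 0 < t := by rw [ht]; exact lt_min (lt_min (by positivity) (by positivity)) (by positivity)
    obtain ⟨a1, ha1, ha1'⟩ := exists_rat_btwn (show a - t < a by linarith)
    obtain ⟨a2, ha2, ha2'⟩ := exists_rat_btwn (show a < a + t by linarith)
    obtain ⟨b1, hb1, hb1'⟩ := exists_rat_btwn (show b - t < b by linarith)
    obtain ⟨b2, hb2, hb2'⟩ := exists_rat_btwn (show b < b + t by linarith)
    obtain ⟨l, hl⟩ := hr (a2, b1)
    have s0 : 0 < min (min (a/8) (b/8)) t := lt_min (lt_min (by positivity) (by positivity)) t0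
    have e1 : ∀ᶠ k in atTop, δ (φ k) < min (min (a/8) (b/8)) t :=
      ((h0.comp hφ.tendsto_atTop).eventually_lt_const s0)
    have e2 : ∀ᶠ k in atTop, |pd (δ (φ k)) a2 b1 - l| < η / 8 := by
      obtain ⟨N, hN⟩ := (Metric.tendsto_atTop.mp hl) (η / 8) (by positivity)
      exact eventually_atTop.mpr ⟨N, fun k hk => by rw [← Real.dist_eq]; exact hN k hk⟩
    have e3 : ∀ᶠ k in atTop, |pd (δ (φ k)) a b - l| < η / 2 := by
      filter_upwards [e1, e2] with k h1 h2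
      have g1 : δ (φ k) < a/8 := h1.trans_le ((min_le_left _ _).trans (min_le_left _ _))
      have g2 : δ (φ k) < b/8 := h1.trans_le ((min_le_left _ _).trans (min_le_right _ _))
      have g3 : δ (φ k) < t := h1.trans_le (min_le_right _ _)
      obtain ⟨k1, k2, k3⟩ := H (δ (φ k)) a1 a2 b1 b2 (hδ _) g1.le g2.le (by linarith) ha1'.le
        ha2.le (by linarith) (by linarith) hb1'.le hb2.le (by linarith)
      have g4 : C * ((a2 - a1) + (b2 - b1) + δ (φ k)) ≤ C * (5 * t) :=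
        mul_le_mul_of_nonneg_left (by linarith) hC.le
      have g5 : C * (5 * t) ≤ 5 * η / 32 := by
        have : C * t ≤ C * (η / (32 * C)) := mul_le_mul_of_nonneg_left t3 hC.le
        have e : C * (η / (32 * C)) = η / 32 := by field_simp
        rw [e] at this
        linarith
      rw [abs_lt] at h2 ⊢
      constructor <;> linarith
    obtain ⟨N, hN⟩ := eventually_atTop.mp e3
    refine ⟨N, fun k hk => ?_⟩
    rw [Real.dist_eq]
    have c1 := abs_lt.mp (hN k hk)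
    have c2 := abs_lt.mp (hN N le_rfl)
    rw [abs_lt]
    constructor <;> linarith
  choose! F hF using key
  exact ⟨F, fun a b ha hb => hF a b ha hb⟩

end D0H96.RG
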