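import Pool.Agent.H974R2.Count
import Pool.Agent.H974R2.RSW2

/-!
Regularity of the crossing probabilities of rectangles in the aspect ratio: geometry.
-/

set_option maxHeartbeats 1000000

namespace D0H96.RG

open H974 Finset

/-- Right end event: a cluster of the rectangle which crosses the columns `[a, k]` and does not
reach the column `k + 1`. -/
def RL (a k h : ℤ) (F : Finset Edg) : Prop :=
  ∃ y, (0 ≤ y ∧ y ≤ h) ∧ (∃ z, (0 ≤ z ∧ z ≤ h) ∧ Reach (↑F ∩ ↑(LRE a k 0 h)) (a, y) (k, z)) ∧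
    ∀ z, 0 ≤ z → z ≤ h → ¬ Reach (↑F ∩ ↑(LRE a (k+1) 0 h)) (a, y) (k+1, z)

/-- Left end event. -/
def LL (j b h : ℤ) (F : Finset Edg) : Prop :=
  ∃ y, (0 ≤ y ∧ y ≤ h) ∧ (∃ z, (0 ≤ z ∧ z ≤ h) ∧ Reach (↑F ∩ ↑(LRE j b 0 h)) (b, y) (j, z)) ∧
    ∀ z, 0 ≤ z → z ≤ h → ¬ Reach (↑F ∩ ↑(LRE (j-1) b 0 h)) (b, y) (j-1, z)

theorem LRE_mono {a b a' b' c d : ℤ} (ha : a' ≤ a) (hb : b ≤ b') :
    LRE a b c d ⊆ LRE a' b' c d := by
  rintro ⟨x, y, _ | _⟩ h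
  · simp only [mem_LRE_false] at h ⊢; omega
  · simp only [mem_LRE_true] at h ⊢; omega

theorem inter_mono {F : Finset Edg} {S T : Finset Edg} (h : S ⊆ T) :
    (↑F ∩ ↑S : Set Edg) ⊆ ↑F ∩ ↑T :=
  Set.inter_subset_inter_right _ (by exact_mod_cast h)

/-- A crossing contains a crossing of every sub-rectangle. -/
theorem sub {F : Finset Edg} {x k a b h y z : ℤ} (hxa : x ≤ a) (hab : a < b) (hbk : b ≤ k)
    (H : Reach (↑F ∩ ↑(LRE x k 0 h)) (x, y) (k, z)) :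
    ∃ y1 y2, (0 ≤ y1 ∧ y1 ≤ h) ∧ (0 ≤ y2 ∧ y2 ≤ h) ∧
      Reach (↑F ∩ ↑(LRE a b 0 h)) (a, y1) (b, y2) ∧
      Reach (↑F ∩ ↑(LRE x k 0 h)) (x, y) (a, y1) := by
  obtain ⟨y1, y2, h1, h2, h3, h4⟩ := sub_LR (a := a) (b := b) (c := 0) (d := h) hab
    (by rintro x y ⟨-, h⟩ _ _; simp only [mem_coe, mem_LRE_true] at h; omega)
    (by rintro x y ⟨-, h⟩ _ _; simp only [mem_coe, mem_LRE_false] at h; omega) H hxa hbk
  exact ⟨y1, y2, h1, h2, h3.mono (by rintro e ⟨⟨h7, -⟩, h8⟩; exact ⟨h7, h8⟩), h4⟩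

/-- First visit of a column. -/
theorem first_col {F : Finset Edg} {a b c h y z : ℤ} (hac : a < c) (hcb : c ≤ b)
    (H : Reach (↑F ∩ ↑(LRE a b 0 h)) (a, y) (b, z)) :
    ∃ w, (0 ≤ w ∧ w ≤ h) ∧ Reach (↑F ∩ ↑(LRE a c 0 h)) (a, y) (c, w) := by
  obtain ⟨v', w', h1, h2, ⟨e, ⟨he, heL⟩, hcase⟩, h4⟩ := first_hit (T := fun v => c ≤ v.1) H
    (by simpa using hac) (by simpa using hcb)
  have h1' : Reach (↑F ∩ ↑(LRE a c 0 h)) (a, y) v' := by
    refine h1.mono ?_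
    rintro ⟨x0, y0, _ | _⟩ ⟨⟨k1, k2⟩, k3, k4⟩
    · refine ⟨k1, ?_⟩
      simp only [mem_coe, mem_LRE_false, src_mk, tgt_false, not_le] at k2 k3 k4 ⊢
      omega
    · refine ⟨k1, ?_⟩
      simp only [mem_coe, mem_LRE_true, src_mk, tgt_true, not_le] at k2 k3 k4 ⊢
      omega
  obtain ⟨x0, y0, _ | _⟩ := e
  · exfalso
    simp only [mem_coe, mem_LRE_false, src_mk, tgt_false] at heL hcase
    rcases hcase with ⟨k1, k2⟩ | ⟨k1, k2⟩
    · rw [← k1] at h2; rw [← k2] at h4; simp only at h2 h4; omega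
    · rw [← k2] at h2; rw [← k1] at h4; simp only at h2 h4; omega
  · simp only [mem_coe, mem_LRE_true, src_mk, tgt_true] at heL hcase
    rcases hcase with ⟨k1, k2⟩ | ⟨k1, k2⟩
    · rw [← k1] at h2 h1'; rw [← k2] at h4; simp only at h2 h4
      have e0 : x0 = c - 1 := by omega
      subst e0
      refine ⟨y0, by omega, h1'.trans (Adj.reach ⟨(c - 1, y0, true), ⟨he, ?_⟩, Or.inl ⟨rfl, ?_⟩⟩)⟩
      · simp only [mem_coe, mem_LRE_true]; omega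
      · simp only [tgt_true]; congr 1; ring
    · exfalso
      rw [← k2] at h2; rw [← k1] at h4; simp only at h2 h4; omega

theorem RL_of {F : Finset Edg} {x a k h : ℤ} (hxa : x ≤ a) (hak : a < k)
    (H : LRc x k 0 h F) (Hn : ¬ LRc x (k+1) 0 h F) : RL a k h F := by
  obtain ⟨y, y', hy, hy', hr⟩ := H
  obtain ⟨y1, y2, h1, h2, h3, h4⟩ := sub hxa hak le_rfl hr
  refine ⟨y1, h1, ⟨y2, h2, h3⟩, fun z hz hz' hR => Hn ⟨y, z, hy, ⟨hz, hz'⟩, ?_⟩⟩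
  exact (h4.mono (inter_mono (LRE_mono le_rfl (by omega)))).trans
    (hR.mono (inter_mono (LRE_mono hxa le_rfl)))

theorem LL_of {F : Finset Edg} {j b y0 h : ℤ} (hjb : j < b) (hby : b ≤ y0)
    (H : LRc j y0 0 h F) (Hn : ¬ LRc (j-1) y0 0 h F) : LL j b h F := by
  obtain ⟨y, y', hy, hy', hr⟩ := H
  obtain ⟨y1, y2, h1, h2, h3, h4⟩ := sub le_rfl hjb hby hr
  refine ⟨y2, h2, ⟨y1, h1, h3.symm⟩, fun z hz hz' hR => Hn ⟨z, y', ⟨hz, hz'⟩, hy', ?_⟩⟩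
  have k1 : Reach (↑F ∩ ↑(LRE (j-1) y0 0 h)) (b, y2) (j-1, z) :=
    hR.mono (inter_mono (LRE_mono le_rfl hby))
  have k2 : Reach (↑F ∩ ↑(LRE (j-1) y0 0 h)) (j, y1) (b, y2) :=
    h3.mono (inter_mono (LRE_mono (by omega) hby))
  have k3 : Reach (↑F ∩ ↑(LRE (j-1) y0 0 h)) (j, y) (j, y1) :=
    h4.mono (inter_mono (LRE_mono (by omega) le_rfl))
  have k4 : Reach (↑F ∩ ↑(LRE (j-1) y0 0 h)) (j, y) (y0, y') :=
    hr.mono (inter_mono (LRE_mono (by omega) le_rfl))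
  exact (k1.symm.trans (k2.symm.trans k3.symm)).trans k4

/-- The second difference of the crossing events. -/
theorem second_diff {F : Finset Edg} {m r h : ℤ} (hr : 0 < r) (hm : 2 * r < m) :
    |ind (LRc 1 (m+1) 0 h F) - ind (LRc 0 (m+1) 0 h F) - ind (LRc 1 (m+2) 0 h F) +
      ind (LRc 0 (m+2) 0 h F)| ≤
    ind ((LL 1 (1+r) h F ∧ LRc (1+r) (m+1-r) 0 h F) ∧ RL (m+1-r) (m+1) h F) := by
  have m1 : LRc 0 (m+1) 0 h F → LRc 1 (m+1) 0 h F :=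
    LRc_sub (by omega) (by omega) le_rfl le_rfl le_rfl
  have m2 : LRc 1 (m+2) 0 h F → LRc 1 (m+1) 0 h F :=
    LRc_sub (by omega) (by omega) (by omega) le_rfl le_rfl
  have m3 : LRc 0 (m+2) 0 h F → LRc 0 (m+1) 0 h F :=
    LRc_sub (by omega) (by omega) (by omega) le_rfl le_rfl
  have m4 : LRc 0 (m+2) 0 h F → LRc 1 (m+2) 0 h F :=
    LRc_sub (by omega) (by omega) le_rfl le_rfl le_rfl
  have mid : LRc 1 (m+1) 0 h F → LRc (1+r) (m+1-r) 0 h F :=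
    LRc_sub (by omega) (by omega) (by omega) le_rfl le_rfl
  have e1 : (1:ℤ) - 1 = 0 := by norm_num
  have e2 : m + 1 + 1 = m + 2 := by ring
  have r1 : LRc 1 (m+1) 0 h F → ¬ LRc 1 (m+2) 0 h F → RL (m+1-r) (m+1) h F := fun h1 h2 =>
    RL_of (x := 1) (by omega) (by omega) h1 (by rw [e2]; exact h2)
  have r2 : LRc 0 (m+1) 0 h F → ¬ LRc 0 (m+2) 0 h F → RL (m+1-r) (m+1) h F := fun h1 h2 =>
    RL_of (x := 0) (by omega) (by omega) h1 (by rw [e2]; exact h2)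
  have l1 : LRc 1 (m+1) 0 h F → ¬ LRc 0 (m+1) 0 h F → LL 1 (1+r) h F := fun h1 h2 =>
    LL_of (y0 := m+1) (by omega) (by omega) h1 (by rw [e1]; exact h2)
  have l2 : LRc 1 (m+2) 0 h F → ¬ LRc 0 (m+2) 0 h F → LL 1 (1+r) h F := fun h1 h2 =>
    LL_of (y0 := m+2) (by omega) (by omega) h1 (by rw [e1]; exact h2)
  by_cases p1 : LRc 1 (m+1) 0 h F
  · by_cases p2 : LRc 0 (m+1) 0 h F <;> by_cases p3 : LRc 1 (m+2) 0 h F <;>
      by_cases p4 : LRc 0 (m+2) 0 h F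
    · simp only [ind_of p1, ind_of p2, ind_of p3, ind_of p4]
      norm_num
      exact ind_nonneg _
    · have hA : ((LL 1 (1+r) h F ∧ LRc (1+r) (m+1-r) 0 h F) ∧ RL (m+1-r) (m+1) h F) :=
        ⟨⟨l2 p3 p4, mid p1⟩, r2 p2 p4⟩
      rw [ind_of hA]
      simp only [ind_of p1, ind_of p2, ind_of p3, ind_not_of p4]
      norm_num
    · exact absurd (m4 p4) p3
    · simp only [ind_of p1, ind_of p2, ind_not_of p3, ind_not_of p4]
      norm_num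
      exact ind_nonneg _
    · exact absurd (m3 p4) p2
    · simp only [ind_of p1, ind_not_of p2, ind_of p3, ind_not_of p4]
      norm_num
      exact ind_nonneg _
    · exact absurd (m3 p4) p2
    · have hA : ((LL 1 (1+r) h F ∧ LRc (1+r) (m+1-r) 0 h F) ∧ RL (m+1-r) (m+1) h F) :=
        ⟨⟨l1 p1 p2, mid p1⟩, r1 p1 p3⟩
      rw [ind_of hA]
      simp only [ind_of p1, ind_not_of p2, ind_not_of p3, ind_not_of p4]
      norm_num
  · have p2 : ¬ LRc 0 (m+1) 0 h F := fun h => p1 (m1 h)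
    have p3 : ¬ LRc 1 (m+2) 0 h F := fun h => p1 (m2 h)
    have p4 : ¬ LRc 0 (m+2) 0 h F := fun h => p2 (m3 h)
    simp only [ind_not_of p1, ind_not_of p2, ind_not_of p3, ind_not_of p4]
    norm_num
    exact ind_nonneg _

/-- The lower bound: a crossing of `[0, m]` which cannot be continued to `m + J` has a first
differing translate. -/
theorem exists_zero {F : Finset Edg} {m h : ℤ} {J : ℕ} (hJ : 1 ≤ J) (hJm : (J:ℤ) ≤ m)
    (H : LRc 0 m 0 h F) (Hn : ¬ LRc m (m+J) 0 h F) :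
    ∃ a ∈ Finset.range J, LRc a (m+a) 0 h F ∧ ¬ LRc a (m+a+1) 0 h F := by
  by_contra hcon
  have hcon' : ∀ a : ℕ, a < J → LRc a (m+a) 0 h F → LRc a (m+a+1) 0 h F := by
    intro a ha h1
    by_contra h2
    exact hcon ⟨a, Finset.mem_range.mpr ha, h1, h2⟩
  have key : ∀ a : ℕ, a < J → LRc a (m+a) 0 h F := by
    intro a
    induction a with
    | zero => intro _; simpa using H
    | succ a ih =>
      intro ha
      have h1 := hcon' a (by omega) (ih (by omega))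
      have h2 : LRc (a+1) (m+a+1) 0 h F :=
        LRc_sub (by omega) (by omega) le_rfl le_rfl le_rfl h1
      have e : m + ((a+1 : ℕ) : ℤ) = m + a + 1 := by push_cast; ring
      rw [e]
      exact_mod_cast h2
  have h1 := hcon' (J-1) (by omega) (key (J-1) (by omega))
  apply Hn
  refine LRc_sub (a := ((J-1 : ℕ) : ℤ)) (b := m + ((J-1 : ℕ) : ℤ) + 1) ?_ ?_ ?_ le_rfl le_rfl h1
  · have : ((J-1 : ℕ) : ℤ) = J - 1 := by push_cast [Nat.cast_sub hJ]; ring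
    omega
  · omega
  · have : ((J-1 : ℕ) : ℤ) = J - 1 := by push_cast [Nat.cast_sub hJ]; ring
    omega

/-! ### The count of the right end events -/

/-- The vertices of the column `a`. -/
noncomputable def col (a h : ℤ) : Finset Vtx := (Finset.Icc 0 h).image (fun y => (a, y))

theorem mem_col {a h : ℤ} {v : Vtx} : v ∈ col a h ↔ ∃ y, (0 ≤ y ∧ y ≤ h) ∧ (a, y) = v := by
  simp only [col, Finset.mem_image, Finset.mem_Icc]

/-- The representative of a right end event in the common rectangle. -/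
def Qk (J : ℕ) (h : ℤ) (k : ℕ) (y : ℤ) (F : Finset Edg) : Prop :=
  (0 ≤ y ∧ y ≤ h) ∧ (∃ z, (0 ≤ z ∧ z ≤ h) ∧ Reach (↑F ∩ ↑(LRE (-J) k 0 h)) (-J, y) (k, z)) ∧
    ∀ z, 0 ≤ z → z ≤ h → ¬ Reach (↑F ∩ ↑(LRE (k - 2 * J) (k+1) 0 h)) (-J, y) (k+1, z)

theorem Qk_of {J : ℕ} (hJ : 1 ≤ J) {h : ℤ} {k : ℕ} (hk : k < J) {F : Finset Edg}
    (H : RL (k - 2 * J) k h F) : ∃ y, Qk J h k y F := by
  obtain ⟨y, hy, ⟨z, hz, hr⟩, hn⟩ := H
  obtain ⟨y1, y2, h1, h2, h3, h4⟩ := sub (a := -(J:ℤ)) (b := k) (by omega) (by omega) le_rfl hr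
  refine ⟨y1, h1, ⟨y2, h2, h3⟩, fun z' hz1 hz2 hR => hn z' hz1 hz2 ?_⟩
  exact (h4.mono (inter_mono (LRE_mono le_rfl (by omega)))).trans hR

theorem Qk_start {J : ℕ} (hJ : 1 ≤ J) {h : ℤ} {k : ℕ} {y : ℤ} {F : Finset Edg}
    (H : Qk J h k y F) :
    ∃ w, (0 ≤ w ∧ w ≤ h) ∧ Reach (↑F ∩ ↑(LRE (-J) 0 0 h)) (-J, y) (0, w) := by
  obtain ⟨_, ⟨z, hz, hr⟩, _⟩ := H
  exact first_col (by omega) (by omega) hr

theorem Qk_inj {J : ℕ} (hJ : 1 ≤ J) {h : ℤ} {k k' : ℕ} (hk' : k' < J) (hkk : k < k') {y y' : ℤ}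
    {F : Finset Edg} (H : Qk J h k y F) (H' : Qk J h k' y' F)
    (hc : Reach (↑F ∩ ↑(LRE (-J) 0 0 h)) (-J, y) (-J, y')) : False := by
  obtain ⟨hy, _, hn⟩ := H
  obtain ⟨hy', ⟨z', hz', hr'⟩, _⟩ := H'
  obtain ⟨w, hw, hR⟩ := first_col (c := k+1) (by omega) (by omega) hr'
  refine hn w hw.1 hw.2 ?_
  exact (hc.mono (inter_mono (LRE_mono (by omega) (by omega)))).trans
    (hR.mono (inter_mono (LRE_mono (by omega) le_rfl)))

open Classical in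
theorem count {J : ℕ} (hJ : 1 ≤ J) {h : ℤ} (F : Finset Edg) :
    ((Finset.range J).filter (fun k : ℕ => RL (k - 2 * J) k h F)).card ≤
      NC src tgt (col (-J) h) (↑(col 0 h)) (↑(F ∩ LRE (-J) 0 0 h) : Set Edg) := by
  unfold NC
  have hex : ∀ k : ℕ, k ∈ (Finset.range J).filter (fun k : ℕ => RL (k - 2 * J) k h F) →
      ∃ y, Qk J h k y F := by
    intro k hk
    rw [Finset.mem_filter, Finset.mem_range] at hk
    exact Qk_of hJ hk.1 hk.2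
  choose! f hf using hex
  have e0 : (↑(F ∩ LRE (-J) 0 0 h) : Set Edg) = ↑F ∩ ↑(LRE (-J) 0 0 h) := by
    rw [Finset.coe_inter]
  refine Finset.card_le_card_of_injOn
    (fun k => clu src tgt (↑(F ∩ LRE (-J) 0 0 h) : Set Edg) (-(J:ℤ), f k)) ?_ ?_
  · intro k hk
    have hQ := hf k hk
    rw [Finset.mem_coe, mem_TC]
    obtain ⟨w, hw, hr⟩ := Qk_start hJ hQ
    refine ⟨(-(J:ℤ), f k), mem_col.mpr ⟨f k, hQ.1, rfl⟩, ⟨(0, w), ?_, ?_⟩, rfl⟩
    · rw [Finset.mem_coe]; exact mem_col.mpr ⟨w, hw, rfl⟩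
    · rw [e0]; exact hr
  · intro k hk k' hk' heq
    have hQ := hf k hk
    have hQ' := hf k' hk'
    have m1 : (-(J:ℤ), f k') ∈ clu src tgt (↑(F ∩ LRE (-J) 0 0 h) : Set Edg) (-(J:ℤ), f k') :=
      Relation.ReflTransGen.refl
    have m2 : (-(J:ℤ), f k') ∈ clu src tgt (↑(F ∩ LRE (-J) 0 0 h) : Set Edg) (-(J:ℤ), f k) := by
      have h0 : clu src tgt (↑(F ∩ LRE (-J) 0 0 h) : Set Edg) (-(J:ℤ), f k) =
        clu src tgt (↑(F ∩ LRE (-J) 0 0 h) : Set Edg) (-(J:ℤ), f k') := heq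
      rw [h0]; exact m1
    have m3 : Reach (↑F ∩ ↑(LRE (-J) 0 0 h)) (-J, f k) (-J, f k') := by
      rw [← e0]; exact m2
    rw [Finset.mem_coe, Finset.mem_filter, Finset.mem_range] at hk hk'
    rcases lt_trichotomy k k' with hlt | heq' | hlt
    · exact (Qk_inj hJ hk'.1 hlt hQ hQ' m3).elim
    · exact heq'
    · exact (Qk_inj hJ hk.1 hlt hQ' hQ m3.symm).elim

end D0H96.RG
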