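import Pool.Agent.D0H96.RG.Lim

/-!
Regularity of the crossing probabilities of rectangles in the aspect ratio: the Taylor estimate in
the height, at mesh `δ`.
-/

set_option maxHeartbeats 1000000

namespace D0H96.RG

open Filter Topology

/-- The discrete derivative in the height. -/
noncomputable def hd (δ a b : ℝ) : ℝ := (P ⌊a / δ⌋₊ (⌊b / δ⌋₊ + 1) - P ⌊a / δ⌋₊ ⌊b / δ⌋₊) / δ

theorem hd_eq {δ a b : ℝ} (h : 1 ≤ ⌊a / δ⌋₊) :
    hd δ a b = Q (⌊b / δ⌋₊ + 1) (⌊a / δ⌋₊ - 1) / δ := by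
  unfold hd Q
  rw [P_dual (m := ⌊a / δ⌋₊) (n := ⌊b / δ⌋₊ + 1) h, P_dual (m := ⌊a / δ⌋₊) (n := ⌊b / δ⌋₊) h]
  congr 1; ring

/-- The Taylor estimate in the height at mesh `δ`. -/
theorem taylor_height {K : ℕ} {C : ℝ} (hC : 0 < C)
    (H1 : ∀ m n : ℕ, 1 ≤ n → n ≤ K * m → n * (P m n - P (m+1) n) ≤ C * P m n)
    (H : ∀ m n : ℕ, 1 ≤ n → n ≤ K * m →
      (n:ℝ)^2 * |P m n - 2 * P (m+1) n + P (m+2) n| ≤ C * P m n)
    {x y x0 b δ : ℝ} (hx0 : 0 < x0) (hb : 0 < b) (hδ : 0 < δ) (hδx : δ ≤ x0 / 2) (hδb : δ ≤ b / 4)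
    (hK : 2 * b ≤ K * x0) (hx : x0 < x) (hy : x0 < y) :
    |(1 - pd δ b x) - (1 - pd δ b y) - (y - x) * hd δ b x| ≤
      32 * C / b^2 * (y - x)^2 + 12 * C / b * δ := by
  have o1 : 1 ≤ ⌊b / δ⌋₊ := one_le hb hδ (by linarith)
  obtain ⟨n, hn⟩ : ∃ n : ℕ, n = ⌊b / δ⌋₊ - 1 := ⟨_, rfl⟩
  obtain ⟨m, hm⟩ : ∃ m : ℕ, m = ⌊x / δ⌋₊ + 1 := ⟨_, rfl⟩
  obtain ⟨m', hm'⟩ : ∃ m' : ℕ, m' = ⌊y / δ⌋₊ + 1 := ⟨_, rfl⟩
  have nb : ((⌊b / δ⌋₊ : ℕ) : ℝ) = n + 1 := by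
    rw [hn, Nat.cast_sub o1]; norm_num
  have hn2 : b / (4 * δ) ≤ n := by
    have h1 := half_le hb hδ (by linarith)
    have h2 : b / (2 * δ) = b / (4 * δ) + b / (4 * δ) := by field_simp; ring
    have h3 : 1 ≤ b / (4 * δ) := by rw [le_div_iff₀ (by positivity)]; linarith
    rw [nb] at h1
    linarith
  have n1 : 1 ≤ n := by
    have h3 : 1 ≤ b / (4 * δ) := by rw [le_div_iff₀ (by positivity)]; linarith
    exact_mod_cast h3.trans hn2
  have hKr : (0:ℝ) ≤ K := by positivity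
  have k1 : n ≤ K * m := by
    have := floor_ratio (K := K) (hx0.trans hx) hb hδ (by linarith)
      (hK.trans (mul_le_mul_of_nonneg_left hx.le hKr))
    have h2 : K * ⌊x / δ⌋₊ ≤ K * (⌊x / δ⌋₊ + 1) := Nat.mul_le_mul_left _ (Nat.le_add_right _ _)
    rw [hm, hn]; omega
  have k2 : n ≤ K * m' := by
    have := floor_ratio (K := K) (hx0.trans hy) hb hδ (by linarith)
      (hK.trans (mul_le_mul_of_nonneg_left hy.le hKr))
    have h2 : K * ⌊y / δ⌋₊ ≤ K * (⌊y / δ⌋₊ + 1) := Nat.mul_le_mul_left _ (Nat.le_add_right _ _)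
    rw [hm', hn]; omega
  have f1 := flo (hx0.trans hx) hδ
  have f2 := flo (hx0.trans hy) hδ
  have m1 : 1 ≤ m := by omega
  have mr : (m:ℝ) = (⌊x / δ⌋₊ : ℕ) + 1 := by rw [hm]; push_cast; ring
  have mr' : (m':ℝ) = (⌊y / δ⌋₊ : ℕ) + 1 := by rw [hm']; push_cast; ring
  have nr : (1:ℝ) ≤ n := by exact_mod_cast n1
  have hq0 : 0 ≤ Q m n := Q_nonneg m1
  have hq1 : Q m n ≤ C / n := Q_le H1 hC n1 k1
  obtain ⟨s, hs⟩ : ∃ s : ℝ, s = (y - x) / δ := ⟨_, rfl⟩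
  have es : (y - x) * (Q m n / δ) = s * Q m n := by rw [hs]; ring
  have ess : s = y / δ - x / δ := by rw [hs]; ring
  have main : |P m n - P m' n - s * Q m n| ≤ 2 * C * s^2 / n^2 + 3 * C / n := by
    rcases le_total m m' with hmm | hmm
    · obtain ⟨j, hj⟩ := Nat.exists_eq_add_of_le hmm
      have jr : (m':ℝ) = m + j := by rw [hj]; push_cast; ring
      rw [hj]
      refine real_taylor (j := j) hC nr hq0 hq1 (taylor_left H hC n1 k1 j) ?_
      rw [ess, abs_le]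
      constructor <;> linarith
    · obtain ⟨j, hj⟩ := Nat.exists_eq_add_of_le hmm
      have jr : (m:ℝ) = m' + j := by rw [hj]; push_cast; ring
      have h1 := taylor_right H hC n1 k2 j
      rw [← hj] at h1
      have h2 : |(P m n - P m' n) - (-(j:ℝ)) * Q m n| ≤ C * (-(j:ℝ))^2 / (n:ℝ)^2 := by
        have e : (P m n - P m' n) - (-(j:ℝ)) * Q m n =
          -(P m' n - P m n - j * Q m n) := by ring
        rw [e, abs_neg, neg_sq]
        exact h1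
      refine real_taylor (j := -(j:ℝ)) hC nr hq0 hq1 h2 ?_
      rw [ess, abs_le]
      constructor <;> linarith
  have e0 : (1 - pd δ b x) - (1 - pd δ b y) - (y - x) * hd δ b x =
      P m n - P m' n - s * Q m n := by
    rw [hd_eq o1, ← hm, ← hn, es]
    unfold pd
    rw [P_dual (m := ⌊b / δ⌋₊) (n := ⌊x / δ⌋₊) o1, P_dual (m := ⌊b / δ⌋₊) (n := ⌊y / δ⌋₊) o1,
      ← hm, ← hm', ← hn]
    ring
  rw [e0]
  refine main.trans ?_
  have hbd : 0 < b / (4 * δ) := by positivity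
  have g1 : 2 * C * s^2 / n^2 ≤ 32 * C / b^2 * (y - x)^2 := by
    have : 2 * C * s^2 / (n:ℝ)^2 ≤ 2 * C * s^2 / (b / (4 * δ))^2 := by
      apply div_le_div_of_nonneg_left (by positivity) (by positivity)
      exact pow_le_pow_left₀ hbd.le hn2 2
    refine this.trans (le_of_eq ?_)
    rw [hs]
    field_simp
    ring
  have g2 : 3 * C / n ≤ 12 * C / b * δ := by
    have : 3 * C / (n:ℝ) ≤ 3 * C / (b / (4 * δ)) :=
      div_le_div_of_nonneg_left (by positivity) hbd hn2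
    refine this.trans (le_of_eq ?_)
    field_simp
    ring
  linarith

end D0H96.RG
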