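import Pool.Agent.D0H96.RG.Disc
import Pool.Agent.D0H96.RG.Abs

/-!
Regularity of the crossing probabilities of rectangles in the aspect ratio: scaling limits.
-/

set_option maxHeartbeats 1000000

namespace D0H96.RG

open Filter Topology

/-- The crossing probability of `[0, a] × [0, b]` at mesh `δ`. -/
noncomputable def pd (δ a b : ℝ) : ℝ := P ⌊a / δ⌋₊ ⌊b / δ⌋₊

/-- The discrete derivative in the width. -/
noncomputable def qd (δ a b : ℝ) : ℝ := Q ⌊a / δ⌋₊ ⌊b / δ⌋₊ / δ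

theorem flo {x δ : ℝ} (hx : 0 < x) (hδ : 0 < δ) :
    ((⌊x / δ⌋₊ : ℕ) : ℝ) ≤ x / δ ∧ x / δ < ((⌊x / δ⌋₊ : ℕ) : ℝ) + 1 :=
  ⟨Nat.floor_le (by positivity), Nat.lt_floor_add_one _⟩

theorem half_le {x δ : ℝ} (hx : 0 < x) (hδ : 0 < δ) (h : δ ≤ x / 2) :
    x / (2 * δ) ≤ ((⌊x / δ⌋₊ : ℕ) : ℝ) := by
  have h1 := (flo hx hδ).2
  have h2 : 1 ≤ x / (2 * δ) := by rw [le_div_iff₀ (by positivity)]; linarith
  have h3 : x / δ = 2 * (x / (2 * δ)) := by field_simp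
  linarith

theorem one_le {x δ : ℝ} (hx : 0 < x) (hδ : 0 < δ) (h : δ ≤ x / 2) : 1 ≤ ⌊x / δ⌋₊ := by
  have h1 := half_le hx hδ h
  have h2 : 1 ≤ x / (2 * δ) := by rw [le_div_iff₀ (by positivity)]; linarith
  exact_mod_cast h2.trans h1

theorem floor_ratio {x b δ : ℝ} {K : ℕ} (hx : 0 < x) (hb : 0 < b) (hδ : 0 < δ) (h : δ ≤ x / 2)
    (hK : 2 * b ≤ K * x) : ⌊b / δ⌋₊ ≤ K * ⌊x / δ⌋₊ := by
  have h1 := half_le hx hδ h
  have h2 := (flo hb hδ).1
  have h3 : b / δ ≤ K * (x / (2 * δ)) := by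
    rw [mul_div_assoc', div_le_div_iff₀ hδ (by positivity)]
    nlinarith
  have h4 : ((⌊b / δ⌋₊ : ℕ) : ℝ) ≤ K * ((⌊x / δ⌋₊ : ℕ) : ℝ) :=
    h2.trans (h3.trans (mul_le_mul_of_nonneg_left h1 (by positivity)))
  exact_mod_cast h4

/-- The elementary inequality behind the Taylor estimate. -/
theorem real_taylor {X j s q C n : ℝ} (hC : 0 < C) (hn : 1 ≤ n) (hq0 : 0 ≤ q) (hq : q ≤ C / n)
    (h1 : |X - j * q| ≤ C * j^2 / n^2) (h2 : |j - s| ≤ 1) :
    |X - s * q| ≤ 2 * C * s^2 / n^2 + 3 * C / n := by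
  have e : X - s * q = (X - j * q) + (j - s) * q := by ring
  rw [e]
  refine (abs_add_le _ _).trans ?_
  rw [abs_mul, abs_of_nonneg hq0]
  have h3 : |j - s| * q ≤ C / n := by nlinarith [abs_nonneg (j - s)]
  have h4 : j^2 ≤ 2 * s^2 + 2 := by
    have h5 := abs_le.mp h2
    nlinarith [sq_nonneg (j - 2 * s), sq_nonneg (j - s)]
  have h5 : C * j^2 / n^2 ≤ C * (2 * s^2 + 2) / n^2 := by gcongr
  have h6 : C * (2 * s^2 + 2) / n^2 = 2 * C * s^2 / n^2 + 2 * C / n^2 := by ring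
  have h7 : 2 * C / n^2 ≤ 2 * C / n := by
    apply div_le_div_of_nonneg_left (by positivity) (by linarith)
    nlinarith
  have h8 : 3 * C / n = 2 * C / n + C / n := by ring
  linarith

/-- The Taylor estimate at mesh `δ`. -/
theorem taylor_mesh {K : ℕ} {C : ℝ} (hC : 0 < C)
    (H1 : ∀ m n : ℕ, 1 ≤ n → n ≤ K * m → n * (P m n - P (m+1) n) ≤ C * P m n)
    (H : ∀ m n : ℕ, 1 ≤ n → n ≤ K * m →
      (n:ℝ)^2 * |P m n - 2 * P (m+1) n + P (m+2) n| ≤ C * P m n)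
    {x y x0 b δ : ℝ} (hx0 : 0 < x0) (hb : 0 < b) (hδ : 0 < δ) (hδx : δ ≤ x0 / 2) (hδb : δ ≤ b / 2)
    (hK : 2 * b ≤ K * x0) (hx : x0 < x) (hy : x0 < y) :
    |pd δ x b - pd δ y b - (y - x) * qd δ x b| ≤ 8 * C / b^2 * (y - x)^2 + 6 * C / b * δ := by
  obtain ⟨n, hn⟩ : ∃ n : ℕ, n = ⌊b / δ⌋₊ := ⟨_, rfl⟩
  obtain ⟨m, hm⟩ : ∃ m : ℕ, m = ⌊x / δ⌋₊ := ⟨_, rfl⟩
  obtain ⟨m', hm'⟩ : ∃ m' : ℕ, m' = ⌊y / δ⌋₊ := ⟨_, rfl⟩
  have n1 : 1 ≤ n := by rw [hn]; exact one_le hb hδ hδb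
  have hKr : (0:ℝ) ≤ K := by positivity
  have k1 : n ≤ K * m := by
    rw [hn, hm]; exact floor_ratio (hx0.trans hx) hb hδ (by linarith)
      (hK.trans (mul_le_mul_of_nonneg_left hx.le hKr))
  have k2 : n ≤ K * m' := by
    rw [hn, hm']; exact floor_ratio (hx0.trans hy) hb hδ (by linarith)
      (hK.trans (mul_le_mul_of_nonneg_left hy.le hKr))
  have f1 := flo (hx0.trans hx) hδ
  have f2 := flo (hx0.trans hy) hδ
  have m1 : 1 ≤ m := by rw [hm]; exact one_le (hx0.trans hx) hδ (by linarith)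
  rw [← hm] at f1
  rw [← hm'] at f2
  have nr : (1:ℝ) ≤ n := by exact_mod_cast n1
  have hq0 : 0 ≤ Q m n := Q_nonneg m1
  have hq1 : Q m n ≤ C / n := Q_le H1 hC n1 k1
  obtain ⟨s, hs⟩ : ∃ s : ℝ, s = (y - x) / δ := ⟨_, rfl⟩
  have es : (y - x) * (Q m n / δ) = s * Q m n := by rw [hs]; ring
  have main : |P m n - P m' n - s * Q m n| ≤ 2 * C * s^2 / n^2 + 3 * C / n := by
    rcases le_total m m' with hmm | hmm
    · obtain ⟨j, rfl⟩ := Nat.exists_eq_add_of_le hmm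
      refine real_taylor (j := j) hC nr hq0 hq1 (taylor_left H hC n1 k1 j) ?_
      push_cast at f2
      have : s = y / δ - x / δ := by rw [hs]; ring
      rw [this, abs_le]
      constructor <;> linarith
    · obtain ⟨j, rfl⟩ := Nat.exists_eq_add_of_le hmm
      have h1 := taylor_right H hC n1 k2 j
      have h2 : |(P (m'+j) n - P m' n) - (-(j:ℝ)) * Q (m'+j) n| ≤ C * (-(j:ℝ))^2 / (n:ℝ)^2 := by
        have e : (P (m'+j) n - P m' n) - (-(j:ℝ)) * Q (m'+j) n =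
          -(P m' n - P (m'+j) n - j * Q (m'+j) n) := by ring
        rw [e, abs_neg, neg_sq]
        exact h1
      refine real_taylor (j := -(j:ℝ)) hC nr hq0 hq1 h2 ?_
      push_cast at f1
      have : s = y / δ - x / δ := by rw [hs]; ring
      rw [this, abs_le]
      constructor <;> linarith
  have e0 : pd δ x b - pd δ y b - (y - x) * qd δ x b = P m n - P m' n - s * Q m n := by
    unfold pd qd
    rw [← hn, ← hm, ← hm', es]
  rw [e0]
  refine main.trans ?_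
  have hn2 : b / (2 * δ) ≤ n := by rw [hn]; exact half_le hb hδ hδb
  have hbd : 0 < b / (2 * δ) := by positivity
  have g1 : 2 * C * s^2 / n^2 ≤ 8 * C / b^2 * (y - x)^2 := by
    have : 2 * C * s^2 / (n:ℝ)^2 ≤ 2 * C * s^2 / (b / (2 * δ))^2 := by
      apply div_le_div_of_nonneg_left (by positivity) (by positivity)
      exact pow_le_pow_left₀ hbd.le hn2 2
    refine this.trans (le_of_eq ?_)
    rw [hs]
    field_simp
    ring
  have g2 : 3 * C / n ≤ 6 * C / b * δ := by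
    have : 3 * C / (n:ℝ) ≤ 3 * C / (b / (2 * δ)) :=
      div_le_div_of_nonneg_left (by positivity) hbd hn2
    refine this.trans (le_of_eq ?_)
    field_simp
    ring
  linarith

/-- The oscillation of the crossing probability at mesh `δ`. -/
theorem osc_mesh {K : ℕ} {C : ℝ} (hC : 0 < C)
    (H1 : ∀ m n : ℕ, 1 ≤ n → n ≤ K * m → n * (P m n - P (m+1) n) ≤ C * P m n)
    {m1 m2 n1 n2 : ℕ} (hm : m1 ≤ m2) (hn : n1 ≤ n2) (hn2 : 1 ≤ n2) (hm1 : 2 ≤ m2)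
    (k1 : n2 ≤ K * m1) (k2 : m2 ≤ K * n1) :
    P m1 n2 - P m2 n1 ≤ C * ((m2:ℝ) - m1) / n2 + C * ((n2:ℝ) - n1) / (m2 - 1) := by
  obtain ⟨j, rfl⟩ := Nat.exists_eq_add_of_le hm
  obtain ⟨i, rfl⟩ := Nat.exists_eq_add_of_le hn
  have h1 := lip_width H1 hC hn2 k1 j
  have h2 := lip_width H1 hC (m := n1 + 1) (n := m1 + j - 1) (by omega)
    (by have := Nat.mul_le_mul_left K (Nat.le_add_right n1 1); omega) i
  have e1 : P (m1 + j) (n1 + i) - P (m1 + j) n1 =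
      P (n1 + 1) (m1 + j - 1) - P (n1 + 1 + i) (m1 + j - 1) := by
    rw [P_dual (m := m1 + j) (n := n1 + i) (by omega), P_dual (m := m1 + j) (n := n1) (by omega)]
    have : n1 + i + 1 = n1 + 1 + i := by ring
    rw [this]; ring
  have e2 : ((m1 + j - 1 : ℕ) : ℝ) = ((m1 + j : ℕ) : ℝ) - 1 := by
    rw [Nat.cast_sub (by omega)]; norm_num
  rw [e2] at h2
  push_cast at h1 h2 ⊢
  have e3 : (m1:ℝ) + j - m1 = j := by ring
  have e4 : (n1:ℝ) + i - n1 = i := by ring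
  rw [e3, e4]
  linarith

end D0H96.RG
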