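import Pool.Agent.D0H96.RG.Prob

/-!
Regularity of the crossing probabilities of rectangles in the aspect ratio: the estimates.
-/

set_option maxHeartbeats 2000000

namespace D0H96.RG

open H974 Finset

theorem h0' : (0:ℝ) ≤ 1/2 := by norm_num
theorem h1' : (1/2:ℝ) ≤ 1 := by norm_num

theorem hh_21 {h : ℤ} (hh1 : 1 ≤ h) : (1/2:ℝ)^47 ≤ hh (1/2) (2 * h) h := by
  rcases eq_or_lt_of_le hh1 with e | e
  · subst e
    have := hh_half 1 (by norm_num)
    norm_num at this ⊢
    rw [this]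
    norm_num
  · exact rsw (n := h / 2) (by omega) (by omega) (by omega) (by omega)

theorem hh_long (K : ℕ) (hK : 1 ≤ K) : ∃ c : ℝ, 0 < c ∧ ∀ w h : ℤ, 1 ≤ h → 1 ≤ w → w ≤ K * h →
    c ≤ hh (1/2) w h := by
  induction K, hK using Nat.le_induction with
  | base =>
    refine ⟨1/2, by norm_num, fun w h hh1 hw hwh => ?_⟩
    exact (hh_square h (by omega)).trans (hh_mono h0' h1' (by omega) (by simpa using hwh) le_rfl)
  | succ K hK ih =>
    obtain ⟨c, hc, ih⟩ := ih
    refine ⟨c * (1/2)^47 * (1/2), by positivity, fun w h hh1 hw hwh => ?_⟩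
    have hKh : (1:ℤ) * h ≤ K * h := by
      apply mul_le_mul_of_nonneg_right _ (by omega)
      exact_mod_cast hK
    have g := hh_glue h0' h1' (w1 := K * h) (w2 := 2 * h) (v := h) (h := h) (by omega)
      (by omega) (by omega) (by omega)
    have a1 := ih (K * h) h hh1 (by omega) le_rfl
    have a2 := hh_21 hh1
    have a3 := hh_square h (by omega)
    have e1 : hh (1/2) (K * h + 2 * h - h) h ≤ hh (1/2) w h :=
      hh_mono h0' h1' (by omega) (by push_cast at hwh; linarith) le_rfl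
    refine le_trans ?_ (g.trans e1)
    have p1 : (0:ℝ) ≤ (1/2)^47 := by positivity
    exact mul_le_mul (mul_le_mul a1 a2 p1 (hc.le.trans a1)) a3 (by norm_num)
      (mul_nonneg (hc.le.trans a1) (p1.trans a2))

theorem pr_empty {S : Finset Edg} {A : Finset Edg → Prop} (hA : A ∅) :
    (1/2:ℝ)^S.card ≤ Pr (fun _ => (1/2:ℝ)) S A := by
  unfold Pr Ex
  have h1 : ∀ F ∈ S.powerset, 0 ≤ (∏ _e ∈ F, (1/2:ℝ)) * (∏ _e ∈ S \ F, (1 - (1/2:ℝ))) * ind (A F) := by
    intro F _
    have := ind_nonneg (A F)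
    have p1 : 0 ≤ (∏ _e ∈ F, (1/2:ℝ)) := Finset.prod_nonneg (fun _ _ => by norm_num)
    have p2 : 0 ≤ (∏ _e ∈ S \ F, (1 - (1/2:ℝ))) := Finset.prod_nonneg (fun _ _ => by norm_num)
    positivity
  have h2 := Finset.single_le_sum h1 (Finset.empty_mem_powerset S)
  refine le_trans (le_of_eq ?_) h2
  rw [ind_of hA, Finset.prod_empty, Finset.sdiff_empty, Finset.prod_const]
  norm_num

theorem hh_lt (K : ℕ) (hK : 1 ≤ K) : ∃ c : ℝ, 0 < c ∧ ∀ J h : ℤ, 1 ≤ J → 0 ≤ h → h ≤ K * J →
    hh (1/2) J h ≤ 1 - c := by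
  obtain ⟨c, hc, H⟩ := hh_long (2 * K + 1) (by omega)
  refine ⟨min c ((1/2)^(4 * (K+1))), lt_min hc (by positivity), fun J h hJ hh0 hle => ?_⟩
  rcases eq_or_lt_of_le hJ with e | e
  · subst e
    have h1 : (1/2:ℝ)^(LRE 0 1 0 h).card ≤ 1 - hh (1/2) 1 h := by
      unfold hh
      rw [← Pr_not]
      apply pr_empty
      rintro ⟨y, y', _, _, hr⟩
      rw [Finset.coe_empty, Set.empty_inter] at hr
      have : ((0:ℤ), y) = (1, y') := by
        rcases Relation.ReflTransGen.cases_head hr with h | ⟨c, ⟨e, he, _⟩, _⟩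
        · exact h
        · exact absurd he (Set.notMem_empty _)
      simp at this
    have h2 : (LRE 0 1 0 h).card ≤ 4 * (K+1) := by
      unfold LRE
      refine (Finset.card_filter_le _ _).trans ?_
      rw [Finset.card_product, Finset.card_product, Int.card_Icc, Int.card_Icc]
      simp only [Finset.card_univ, Fintype.card_bool]
      have : (h + 1 - 0).toNat ≤ K + 1 := by
        have : h ≤ K := by simpa using hle
        omega
      have e2 : ((1:ℤ) + 1 - 0).toNat = 2 := rfl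
      rw [e2]
      omega
    have h3 : (1/2:ℝ)^(4 * (K+1)) ≤ (1/2:ℝ)^(LRE 0 1 0 h).card :=
      pow_le_pow_of_le_one (by norm_num) (by norm_num) h2
    have h4 := min_le_right c ((1/2:ℝ)^(4 * (K+1)))
    linarith
  · rw [hh_dual (q := 1/2) (w := J) (h := h) (by omega) hh0]
    have e1 : (1:ℝ) - 1/2 = 1/2 := by norm_num
    rw [e1]
    have h2 : h + 1 ≤ ((2 * K + 1 : ℕ) : ℤ) * (J - 1) := by
      push_cast
      have : (K:ℤ) * J ≤ K * (2 * (J - 1)) :=
        mul_le_mul_of_nonneg_left (by omega) (by positivity)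
      nlinarith
    have h3 := H (h+1) (J-1) (by omega) (by omega) h2
    have h4 := min_le_left c ((1/2:ℝ)^(4 * (K+1)))
    linarith

theorem ratio (K : ℕ) (hK : 1 ≤ K) : ∃ C : ℝ, 0 < C ∧ ∀ m h s : ℤ, 1 ≤ h → h ≤ K * m →
    0 ≤ s → 2 * s ≤ m → s ≤ 4 * h → hh (1/2) (m - s) h ≤ C * hh (1/2) m h := by
  obtain ⟨c5, hc5, H5⟩ := hh_long 5 (by norm_num)
  obtain ⟨ck, hck, Hk⟩ := hh_long (2 * K) (by omega)
  refine ⟨1 / (c5 * ck), by positivity, fun m h s h1 hm hs hs2 hs4 => ?_⟩
  have hm0 : 1 ≤ m := by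
    by_contra hcon
    have : (K:ℤ) * m ≤ 0 := mul_nonpos_of_nonneg_of_nonpos (by positivity) (by omega)
    omega
  obtain ⟨v, hv⟩ : ∃ v : ℤ, v = min h (m - s) := ⟨_, rfl⟩
  have v1 : 1 ≤ v := by rw [hv]; exact le_min h1 (by omega)
  have v2 : v ≤ h := by rw [hv]; exact min_le_left _ _
  have v3 : v ≤ m - s := by rw [hv]; exact min_le_right _ _
  have v4 : h ≤ ((2 * K : ℕ) : ℤ) * v := by
    push_cast
    rcases min_cases h (m - s) with ⟨e, _⟩ | ⟨e, _⟩
    · rw [hv, e]
      have : (1:ℤ) * h ≤ (2 * K) * h := mul_le_mul_of_nonneg_right (by omega) (by omega)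
      linarith
    · rw [hv, e]
      have : (K:ℤ) * m ≤ K * (2 * (m - s)) :=
        mul_le_mul_of_nonneg_left (by omega) (by positivity)
      nlinarith
  have g := hh_glue h0' h1' (w1 := m - s) (w2 := s + v) (v := v) (h := h) (by omega)
    v3 (by omega) (by omega)
  rw [show m - s + (s + v) - v = m by ring] at g
  have a2 := H5 (s + v) h h1 (by omega) (by push_cast; omega)
  have a3 := Hk h v v1 (by omega) v4
  have n1 := hh_nonneg h0' h1' (m - s) h
  have a4 : hh (1/2) (m - s) h * c5 * ck ≤ hh (1/2) m h := by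
    refine le_trans ?_ g
    exact mul_le_mul (mul_le_mul_of_nonneg_left a2 n1) a3 hck.le
      (mul_nonneg n1 (hc5.le.trans a2))
  rw [div_mul_eq_mul_div, one_mul, le_div_iff₀ (by positivity)]
  linarith

/-- The main estimates in finite form. -/
theorem main (K : ℕ) (hK : 1 ≤ K) : ∃ c C : ℝ, 0 < c ∧ 0 < C ∧ ∀ m h : ℤ, 1 ≤ h → h ≤ K * m →
    c * hh (1/2) m h ≤ h * (hh (1/2) m h - hh (1/2) (m+1) h) ∧
    h * (hh (1/2) m h - hh (1/2) (m+1) h) ≤ C * hh (1/2) m h ∧
    (h:ℝ)^2 * |hh (1/2) m h - 2 * hh (1/2) (m+1) h + hh (1/2) (m+2) h| ≤ C * hh (1/2) m h := by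
  obtain ⟨c1, hc1, H1⟩ := hh_lt K hK
  obtain ⟨c2, hc2, H2⟩ := hh_lt (32 * K) (by omega)
  obtain ⟨C3, hC3, H3⟩ := ratio K hK
  obtain ⟨D, hD⟩ : ∃ D : ℝ, D = 2 / c2^2 * (32 * K) := ⟨_, rfl⟩
  have hKr : (1:ℝ) ≤ K := by exact_mod_cast hK
  have hD0 : 0 < D := by rw [hD]; positivity
  obtain ⟨M, hM⟩ : ∃ M : ℝ, M = max (16 * (K:ℝ)) ((16 * (K:ℝ))^2) := ⟨_, rfl⟩
  have mx1 : 16 * (K:ℝ) ≤ M := by rw [hM]; exact le_max_left _ _
  have mx2 : (16 * (K:ℝ))^2 ≤ M := by rw [hM]; exact le_max_right _ _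
  have mx0 : 0 < M := by linarith
  refine ⟨c1, M + D * C3 + D^2 * C3, hc1, by positivity, fun m h h1 hm => ?_⟩
  have hm0 : 1 ≤ m := by
    by_contra hcon
    have : (K:ℤ) * m ≤ 0 := mul_nonpos_of_nonneg_of_nonpos (by positivity) (by omega)
    omega
  have hr1 : (1:ℝ) ≤ h := by exact_mod_cast h1
  have n0 := hh_nonneg h0' h1' m h
  have n1 := hh_nonneg h0' h1' (m+1) h
  have n2 := hh_nonneg h0' h1' (m+2) h
  have m1 : hh (1/2) (m+1) h ≤ hh (1/2) m h := hh_mono h0' h1' (by omega) (by omega) le_rfl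
  have m2 : hh (1/2) (m+2) h ≤ hh (1/2) (m+1) h := hh_mono h0' h1' (by omega) (by omega) le_rfl
  refine ⟨?_, ?_⟩
  · obtain ⟨J, hJ⟩ : ∃ J : ℕ, (J:ℤ) = min m h := ⟨(min m h).toNat, Int.toNat_of_nonneg (by
      exact le_min (by omega) (by omega))⟩
    have j1 : 1 ≤ J := by
      have : (1:ℤ) ≤ J := by rw [hJ]; exact le_min hm0 h1
      exact_mod_cast this
    have j2 : (J:ℤ) ≤ m := by rw [hJ]; exact min_le_left _ _
    have j3 : (J:ℤ) ≤ h := by rw [hJ]; exact min_le_right _ _
    have j4 : h ≤ (K:ℤ) * J := by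
      rcases min_cases m h with ⟨e, _⟩ | ⟨e, _⟩
      · rw [hJ, e]; exact hm
      · rw [hJ, e]
        have : (1:ℤ) * h ≤ K * h := mul_le_mul_of_nonneg_right (by exact_mod_cast hK) (by omega)
        linarith
    have l1 := low (h := h) j1 j2
    have l2 := H1 J h (by exact_mod_cast j1) (by omega) j4
    have l3 : (J:ℝ) ≤ h := by exact_mod_cast j3
    have l4 : hh (1/2) m h * c1 ≤ hh (1/2) m h * (1 - hh (1/2) J h) :=
      mul_le_mul_of_nonneg_left (by linarith) n0
    have l5 : (J:ℝ) * (hh (1/2) m h - hh (1/2) (m+1) h) ≤ h * (hh (1/2) m h - hh (1/2) (m+1) h) :=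
      mul_le_mul_of_nonneg_right l3 (by linarith)
    linarith
  · rcases lt_or_ge m 16 with hlt | hge
    · have hb : (h:ℝ) ≤ 16 * K := by
        have : h ≤ 16 * K := by
          have : (K:ℤ) * m ≤ K * 16 := mul_le_mul_of_nonneg_left (by omega) (by positivity)
          linarith
        exact_mod_cast this
      have hb2 : (h:ℝ)^2 ≤ (16 * K)^2 := pow_le_pow_left₀ (by linarith) hb 2
      constructor
      · have e1 : (h:ℝ) * (hh (1/2) m h - hh (1/2) (m+1) h) ≤ (16 * K) * hh (1/2) m h :=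
          mul_le_mul hb (by linarith) (by linarith) (by positivity)
        have e2 : (16 * K) * hh (1/2) m h ≤
            (M + D * C3 + D^2 * C3) * hh (1/2) m h := by
          apply mul_le_mul_of_nonneg_right _ n0
          have : 0 < D * C3 := by positivity
          have : 0 < D^2 * C3 := by positivity
          linarith
        linarith
      · have e0 : |hh (1/2) m h - 2 * hh (1/2) (m+1) h + hh (1/2) (m+2) h| ≤ hh (1/2) m h := by
          rw [abs_le]; constructor <;> linarith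
        have e1 : (h:ℝ)^2 * |hh (1/2) m h - 2 * hh (1/2) (m+1) h + hh (1/2) (m+2) h| ≤
            (16 * K)^2 * hh (1/2) m h := mul_le_mul hb2 e0 (abs_nonneg _) (by positivity)
        have e2 : (16 * K)^2 * hh (1/2) m h ≤
            (M + D * C3 + D^2 * C3) * hh (1/2) m h := by
          apply mul_le_mul_of_nonneg_right _ n0
          have : 0 < D * C3 := by positivity
          have : 0 < D^2 * C3 := by positivity
          linarith
        linarith
    · obtain ⟨J, hJ⟩ : ∃ J : ℕ, (J:ℤ) = min (m/16) h := ⟨(min (m/16) h).toNat,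
        Int.toNat_of_nonneg (by exact le_min (by omega) (by omega))⟩
      have j1 : 1 ≤ J := by
        have : (1:ℤ) ≤ J := by rw [hJ]; exact le_min (by omega) h1
        exact_mod_cast this
      have j2 : (J:ℤ) ≤ m/16 := by rw [hJ]; exact min_le_left _ _
      have j3 : (J:ℤ) ≤ h := by rw [hJ]; exact min_le_right _ _
      have j4 : h ≤ ((32 * K : ℕ) : ℤ) * J := by
        push_cast
        rcases min_cases (m/16) h with ⟨e, _⟩ | ⟨e, _⟩
        · rw [hJ, e]
          have : (K:ℤ) * m ≤ K * (32 * (m/16)) :=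
            mul_le_mul_of_nonneg_left (by omega) (by positivity)
          linarith
        · rw [hJ, e]
          have : (1:ℤ) * h ≤ (32 * K) * h := mul_le_mul_of_nonneg_right (by omega) (by omega)
          linarith
      have l2 := H2 J h (by exact_mod_cast j1) (by omega) j4
      have l3 := phi_count j1 (h := h) (by linarith)
      have jr : (1:ℝ) ≤ J := by exact_mod_cast j1
      have l4 : 2 / (1 - hh (1/2) J h)^2 ≤ 2 / c2^2 := by
        apply div_le_div_of_nonneg_left (by norm_num) (by positivity)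
        exact pow_le_pow_left₀ hc2.le (by linarith) 2
      have l5 : (J:ℝ) * phi (2 * J) h ≤ 2 / c2^2 := l3.trans l4
      have j4r : (h:ℝ) ≤ 32 * K * J := by exact_mod_cast j4
      have pn := phi_nonneg (2 * J) h
      have l6 : (h:ℝ) * phi (2 * J) h ≤ D := by
        calc (h:ℝ) * phi (2 * J) h ≤ (32 * K * J) * phi (2 * J) h :=
              mul_le_mul_of_nonneg_right j4r pn
          _ = (32 * K) * (J * phi (2 * J) h) := by ring
          _ ≤ (32 * K) * (2 / c2^2) := mul_le_mul_of_nonneg_left l5 (by positivity)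
          _ = D := by rw [hD]; ring
      have hJpos : (0:ℤ) < J := by omega
      have u1 := up1 (m := m) (r := 2 * J) (h := h) (by omega) (by omega)
      have u2 := up2 (m := m) (r := 2 * J) (h := h) (by omega) (by omega)
      have r1 := H3 m h (2 * J) h1 hm (by omega) (by omega) (by omega)
      have r2 := H3 m h (2 * (2 * J)) h1 hm (by omega) (by omega) (by omega)
      have hp0 : 0 ≤ (h:ℝ) * phi (2 * J) h := by positivity
      constructor
      · have e1 : (h:ℝ) * (hh (1/2) m h - hh (1/2) (m+1) h) ≤ D * (C3 * hh (1/2) m h) := by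
          calc (h:ℝ) * (hh (1/2) m h - hh (1/2) (m+1) h)
              ≤ h * (hh (1/2) (m - 2 * J) h * phi (2 * J) h) :=
                mul_le_mul_of_nonneg_left u1 (by linarith)
            _ = (h * phi (2 * J) h) * hh (1/2) (m - 2 * J) h := by ring
            _ ≤ D * (C3 * hh (1/2) m h) :=
                mul_le_mul l6 r1 (hh_nonneg h0' h1' _ _) hD0.le
        have e2 : 0 ≤ (M + D^2 * C3) * hh (1/2) m h := by positivity
        have e3 : (M + D * C3 + D^2 * C3) * hh (1/2) m h =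
          D * (C3 * hh (1/2) m h) + (M + D^2 * C3) * hh (1/2) m h := by ring
        linarith
      · obtain ⟨X, hX⟩ : ∃ X : ℝ, X = |hh (1/2) m h - 2 * hh (1/2) (m+1) h + hh (1/2) (m+2) h| :=
          ⟨_, rfl⟩
        obtain ⟨Y, hY⟩ : ∃ Y : ℝ, Y = hh (1/2) (m - 2 * (2 * J)) h := ⟨_, rfl⟩
        obtain ⟨P, hP⟩ : ∃ P : ℝ, P = phi (2 * J) h := ⟨_, rfl⟩
        have y0 : 0 ≤ Y := by rw [hY]; exact hh_nonneg h0' h1' _ _
        rw [← hX, ← hY, ← hP] at u2
        rw [← hY] at r2
        rw [← hP] at l6 hp0 pn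
        rw [← hX]
        have e1 : (h:ℝ)^2 * X ≤ D^2 * (C3 * hh (1/2) m h) := by
          have f1 : (h:ℝ)^2 * X ≤ (h:ℝ)^2 * (P * Y * P) :=
            mul_le_mul_of_nonneg_left u2 (by positivity)
          have f2 : (h:ℝ)^2 * (P * Y * P) = (h * P)^2 * Y := by ring
          have f3 : (h * P)^2 ≤ D^2 := pow_le_pow_left₀ hp0 l6 2
          have f4 : (h * P)^2 * Y ≤ D^2 * (C3 * hh (1/2) m h) :=
            mul_le_mul f3 r2 y0 (by positivity)
          linarith
        have e2 : 0 ≤ (M + D * C3) * hh (1/2) m h := by positivity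
        have e3 : (M + D * C3 + D^2 * C3) * hh (1/2) m h =
          D^2 * (C3 * hh (1/2) m h) + (M + D * C3) * hh (1/2) m h := by ring
        linarith

end D0H96.RG
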