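import Pool.Agent.D0H96.RG.Disc

/-!
Regularity of the crossing probabilities of rectangles: the mixed differences. By duality the second
differences in both side lengths are of order `1 / n ^ 2`, and by interpolation the first difference in the
width is log-Lipschitz in the height.
-/

set_option maxHeartbeats 1000000

namespace D0H96.RG

/-- Iteration of an almost linear function. -/
theorem dblN {f : ℕ → ℝ} {N : ℕ} {A B : ℝ} (hN : 1 ≤ N) (hA : 0 ≤ A)
    (h2 : ∀ s : ℕ, 1 ≤ s → 2 * s ≤ N → |f (2 * s) - 2 * f s| ≤ A * s)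
    (hB : ∀ s : ℕ, 1 ≤ s → s ≤ N → |f s| ≤ B) :
    ∀ s : ℕ, 1 ≤ s → s ≤ N → |f s| ≤ s * (2 * B / N + A * Real.log (N / s)) := by
  have hN0 : (0:ℝ) < N := by exact_mod_cast hN
  have hB0 : 0 ≤ B := (abs_nonneg _).trans (hB N hN le_rfl)
  have key : ∀ n s : ℕ, 1 ≤ s → N < s * 2 ^ (n+1) → s * 2 ^ n ≤ N →
      |f s| ≤ s * (2 * B / N + n * (A / 2)) := by
    intro n
    induction n with
    | zero =>
      intro s hs h3 h4
      have h5 : (N:ℝ) < s * 2 := by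
        have : N < s * 2 := by simpa using h3
        exact_mod_cast this
      refine (hB s hs (by simpa using h4)).trans ?_
      have h6 : (s:ℝ) * (2 * B / N + (0:ℕ) * (A / 2)) = (s * 2) * B / N := by
        push_cast; ring
      rw [h6, le_div_iff₀ hN0]
      nlinarith
    | succ n ih =>
      intro s hs h3 h4
      have g1 : 2 * s * 2 ^ (n + 1) = s * 2 ^ (n + 1 + 1) := by ring
      have g2 : 2 * s * 2 ^ n = s * 2 ^ (n + 1) := by ring
      have h5 := ih (2 * s) (by omega) (by rw [g1]; exact h3) (by rw [g2]; exact h4)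
      have h7 : 2 * s ≤ N := by
        have : 1 ≤ 2 ^ n := Nat.one_le_two_pow
        have h8 : s * 2 ≤ s * 2 ^ (n + 1) := Nat.mul_le_mul_left _ (by rw [pow_succ]; omega)
        omega
      have h8 := h2 s hs h7
      have h9 : |2 * f s| ≤ |f (2 * s)| + |f (2 * s) - 2 * f s| := by
        have : 2 * f s = f (2 * s) - (f (2 * s) - 2 * f s) := by ring
        calc |2 * f s| = |f (2 * s) - (f (2 * s) - 2 * f s)| := by rw [← this]
          _ ≤ _ := abs_sub _ _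
      rw [abs_mul, abs_two] at h9
      push_cast at h5 ⊢
      nlinarith
  intro s hs hsN
  have hs0 : (0:ℝ) < s := by exact_mod_cast hs
  have hx : 1 ≤ (N:ℝ) / s := by
    rw [le_div_iff₀ hs0, one_mul]; exact_mod_cast hsN
  obtain ⟨n, h3, h4⟩ := exists_nat_pow_near hx (show (1:ℝ) < 2 by norm_num)
  have h5 : s * 2 ^ n ≤ N := by
    rw [le_div_iff₀ hs0] at h3
    have : ((s * 2 ^ n : ℕ) : ℝ) ≤ N := by push_cast; linarith
    exact_mod_cast this
  have h6 : N < s * 2 ^ (n+1) := by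
    rw [div_lt_iff₀ hs0] at h4
    have : (N:ℝ) < ((s * 2 ^ (n+1) : ℕ) : ℝ) := by push_cast; linarith
    exact_mod_cast this
  refine (key n s hs h6 h5).trans ?_
  refine mul_le_mul_of_nonneg_left ?_ hs0.le
  have h7 : (n:ℝ) * Real.log 2 ≤ Real.log (N / s) := by
    rw [← Real.log_pow]
    exact Real.log_le_log (by positivity) h3
  have h8 := Real.log_two_gt_d9
  have h9 : (n:ℝ) * (1/2) ≤ n * Real.log 2 :=
    mul_le_mul_of_nonneg_left (by linarith) (Nat.cast_nonneg n)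
  have h10 : (n:ℝ) * (A / 2) = A * (n * (1/2)) := by ring
  rw [h10]
  have := mul_le_mul_of_nonneg_left (h9.trans h7) hA
  linarith

/-- The mixed difference in two ways. -/
theorem mixed_two {K : ℕ} {c C : ℝ} (hK : 1 ≤ K) (hC : 0 < C)
    (H : ∀ m n : ℕ, 1 ≤ n → n ≤ 4 * K * m →
      c * P m n ≤ n * (P m n - P (m+1) n) ∧ n * (P m n - P (m+1) n) ≤ C * P m n ∧
      (n:ℝ)^2 * |P m n - 2 * P (m+1) n + P (m+2) n| ≤ C * P m n)
    {m n : ℕ} (hm : 2 ≤ m) (hn : 1 ≤ n) (hnm : n ≤ K * m) (hmn : m ≤ K * n) {h k : ℕ}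
    (hh : h ≤ n) (hk : k ≤ 2 * n) :
    |h * (Q m (n+k) - Q m n) + k * (Q (n+1) (m+h-1) - Q (n+1) (m-1))| ≤
      8 * C * K^2 * ((h:ℝ)^2 + (k:ℝ)^2) / (n:ℝ)^2 := by
  have H3 := fun m n h1 h2 => (H m n h1 h2).2.2
  have hn0 : (1:ℝ) ≤ n := by exact_mod_cast hn
  have hK0 : (1:ℝ) ≤ K := by exact_mod_cast hK
  have n1 : n + k ≤ 4 * K * m := by nlinarith
  have n2 : n ≤ 4 * K * m := by nlinarith
  have n3 : m + h - 1 ≤ 4 * K * (n + 1) := by
    have : m + h ≤ 4 * K * (n+1) := by nlinarith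
    omega
  have n4 : m - 1 ≤ 4 * K * (n + 1) := by
    have : m ≤ 4 * K * (n+1) := by nlinarith
    omega
  have t1 := taylor_left H3 hC (m := m) (n := n + k) (by omega) n1 h
  have t2 := taylor_left H3 hC (m := m) (n := n) hn n2 h
  have t3 := taylor_left H3 hC (m := n+1) (n := m + h - 1) (by omega) n3 k
  have t4 := taylor_left H3 hC (m := n+1) (n := m - 1) (by omega) n4 k
  have d1 := P_dual (m := m) (n := n) (by omega)
  have d2 := P_dual (m := m) (n := n + k) (by omega)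
  have d3 := P_dual (m := m + h) (n := n) (by omega)
  have d4 := P_dual (m := m + h) (n := n + k) (by omega)
  have e1 : n + k + 1 = n + 1 + k := by ring
  rw [e1] at d2 d4
  have m1 : ((m - 1 : ℕ) : ℝ) = m - 1 := by rw [Nat.cast_sub (by omega)]; norm_num
  have m2 : (n:ℝ) / (2 * K) ≤ ((m - 1 : ℕ) : ℝ) := by
    rw [m1, div_le_iff₀ (by positivity)]
    have h1 : (n:ℝ) ≤ K * m := by exact_mod_cast hnm
    have h2 : (2:ℝ) ≤ m := by exact_mod_cast hm
    nlinarith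
  have m3 : (n:ℝ) / (2 * K) ≤ ((m + h - 1 : ℕ) : ℝ) := by
    refine m2.trans ?_
    exact_mod_cast (by omega : m - 1 ≤ m + h - 1)
  have q0 : 0 < (n:ℝ) / (2 * K) := by positivity
  have b1 : C * (h:ℝ)^2 / ((n + k : ℕ) : ℝ)^2 ≤ C * (h:ℝ)^2 / (n:ℝ)^2 := by
    apply div_le_div_of_nonneg_left (by positivity) (by positivity)
    apply pow_le_pow_left₀ (by positivity)
    push_cast
    linarith [(Nat.cast_nonneg k : (0:ℝ) ≤ k)]
  have b2 : C * (k:ℝ)^2 / ((m + h - 1 : ℕ) : ℝ)^2 ≤ 4 * C * K^2 * (k:ℝ)^2 / (n:ℝ)^2 := by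
    calc C * (k:ℝ)^2 / ((m + h - 1 : ℕ) : ℝ)^2 ≤ C * (k:ℝ)^2 / ((n:ℝ) / (2 * K))^2 := by
          apply div_le_div_of_nonneg_left (by positivity) (by positivity)
          exact pow_le_pow_left₀ q0.le m3 2
      _ = _ := by field_simp; ring
  have b3 : C * (k:ℝ)^2 / ((m - 1 : ℕ) : ℝ)^2 ≤ 4 * C * K^2 * (k:ℝ)^2 / (n:ℝ)^2 := by
    calc C * (k:ℝ)^2 / ((m - 1 : ℕ) : ℝ)^2 ≤ C * (k:ℝ)^2 / ((n:ℝ) / (2 * K))^2 := by
          apply div_le_div_of_nonneg_left (by positivity) (by positivity)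
          exact pow_le_pow_left₀ q0.le m2 2
      _ = _ := by field_simp; ring
  have a1 := abs_le.1 (t1.trans b1)
  have a2 := abs_le.1 t2
  have a3 := abs_le.1 (t3.trans b2)
  have a4 := abs_le.1 (t4.trans b3)
  have e5 : 8 * C * K^2 * ((h:ℝ)^2 + (k:ℝ)^2) / (n:ℝ)^2 =
      8 * C * K^2 * (h:ℝ)^2 / (n:ℝ)^2 + (4 * C * K^2 * (k:ℝ)^2 / (n:ℝ)^2 + 4 * C * K^2 * (k:ℝ)^2 / (n:ℝ)^2) := by
    ring
  have e6 : 2 * (C * (h:ℝ)^2 / (n:ℝ)^2) ≤ 8 * C * K^2 * (h:ℝ)^2 / (n:ℝ)^2 := by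
    rw [← mul_div_assoc]
    apply div_le_div_of_nonneg_right _ (by positivity)
    have : 2 * (C * (h:ℝ)^2) * 1 ≤ 2 * (C * (h:ℝ)^2) * (4 * K^2) :=
      mul_le_mul_of_nonneg_left (by nlinarith) (by positivity)
    nlinarith
  rw [e5, abs_le]
  constructor <;> linarith [a1.1, a1.2, a2.1, a2.2, a3.1, a3.2, a4.1, a4.2]

/-- **The first difference in the width is log-Lipschitz in the height.** -/
theorem mixP (K : ℕ) (hK : 1 ≤ K) : ∃ C : ℝ, 0 < C ∧ ∀ m n : ℕ, 2 ≤ m → 1 ≤ n → n ≤ K * m →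
    m ≤ K * n → ∀ h : ℕ, 1 ≤ h → h ≤ n →
      |Q m (n+h) - Q m n| ≤ C * h * (1 + Real.log (n / h)) / (n:ℝ)^2 := by
  obtain ⟨c, C, hc, hC, H⟩ := mainP (4 * K) (by omega)
  have hK0 : (1:ℝ) ≤ K := by exact_mod_cast hK
  refine ⟨2 * C + 72 * C * K^2, by positivity, ?_⟩
  intro m n hm hn hnm hmn h hh1 hhn
  have hn0 : (1:ℝ) ≤ n := by exact_mod_cast hn
  have H1 := fun m n h1 h2 => (H m n h1 h2).2.1
  have h2 : ∀ s : ℕ, 1 ≤ s → 2 * s ≤ n →
      |(Q m (n + 2 * s) - Q m n) - 2 * (Q m (n + s) - Q m n)| ≤ 72 * C * K^2 / (n:ℝ)^2 * s := by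
    intro s hs h2s
    have hs0 : (0:ℝ) < s := by exact_mod_cast hs
    have u1 := mixed_two hK hC H hm hn hnm hmn (h := s) (k := s) (by omega) (by omega)
    have u2 := mixed_two hK hC H hm hn hnm hmn (h := s) (k := 2 * s) (by omega) (by omega)
    obtain ⟨f1, hf1⟩ : ∃ x, x = Q m (n + s) - Q m n := ⟨_, rfl⟩
    obtain ⟨f2, hf2⟩ : ∃ x, x = Q m (n + 2 * s) - Q m n := ⟨_, rfl⟩
    obtain ⟨g, hg⟩ : ∃ x, x = Q (n+1) (m+s-1) - Q (n+1) (m-1) := ⟨_, rfl⟩
    rw [← hf1, ← hg] at u1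
    rw [← hf2, ← hg] at u2
    rw [← hf1, ← hf2]
    push_cast at u2
    have v1 : |f1 + g| ≤ 16 * C * K^2 * s / (n:ℝ)^2 := by
      have e : (s:ℝ) * f1 + s * g = s * (f1 + g) := by ring
      rw [e, abs_mul, abs_of_pos hs0] at u1
      have e2 : 8 * C * K^2 * ((s:ℝ)^2 + (s:ℝ)^2) / (n:ℝ)^2 = s * (16 * C * K^2 * s / (n:ℝ)^2) := by ring
      rw [e2] at u1
      exact le_of_mul_le_mul_left u1 hs0
    have v2 : |f2 + 2 * g| ≤ 40 * C * K^2 * s / (n:ℝ)^2 := by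
      have e : (s:ℝ) * f2 + 2 * s * g = s * (f2 + 2 * g) := by ring
      rw [e, abs_mul, abs_of_pos hs0] at u2
      have e2 : 8 * C * K^2 * ((s:ℝ)^2 + (2 * (s:ℝ))^2) / (n:ℝ)^2 =
        s * (40 * C * K^2 * s / (n:ℝ)^2) := by ring
      rw [e2] at u2
      exact le_of_mul_le_mul_left u2 hs0
    have e3 : f2 - 2 * f1 = (f2 + 2 * g) - 2 * (f1 + g) := by ring
    rw [e3]
    refine (abs_sub _ _).trans ?_
    rw [abs_mul, abs_two]
    have e4 : 72 * C * K^2 / (n:ℝ)^2 * s = 40 * C * K^2 * s / (n:ℝ)^2 +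
      2 * (16 * C * K^2 * s / (n:ℝ)^2) := by ring
    rw [e4]
    linarith
  have hB : ∀ s : ℕ, 1 ≤ s → s ≤ n → |Q m (n + s) - Q m n| ≤ C / n := by
    intro s hs hsn
    have n1 : n + s ≤ 4 * K * m := by nlinarith
    have n2 : n ≤ 4 * K * m := by nlinarith
    have w1 := Q_le H1 hC (m := m) (n := n + s) (by omega) n1
    have w2 := Q_le H1 hC (m := m) (n := n) hn n2
    have w3 := Q_nonneg (m := m) (n := n + s) (by omega)
    have w4 := Q_nonneg (m := m) (n := n) (by omega)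
    have w5 : C / ((n + s : ℕ) : ℝ) ≤ C / n := by
      apply div_le_div_of_nonneg_left hC.le (by positivity)
      push_cast
      linarith [(Nat.cast_nonneg s : (0:ℝ) ≤ s)]
    rw [abs_le]
    constructor <;> linarith
  have h3 := dblN (f := fun s => Q m (n + s) - Q m n) hn (by positivity) h2 hB h hh1 hhn
  refine h3.trans ?_
  have hlog : 0 ≤ Real.log ((n:ℝ) / h) := by
    apply Real.log_nonneg
    have : (0:ℝ) < h := by exact_mod_cast hh1
    rw [le_div_iff₀ this, one_mul]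
    exact_mod_cast hhn
  have e : (2 * C + 72 * C * K^2) * h * (1 + Real.log (n / h)) / (n:ℝ)^2 =
      h * (2 * (C / n) / n + 72 * C * K^2 / (n:ℝ)^2 * Real.log (n / h)) +
        h * ((72 * C * K^2 + 2 * C * Real.log (n / h)) / (n:ℝ)^2) := by
    field_simp
    ring
  rw [e]
  have : 0 ≤ h * ((72 * C * K^2 + 2 * C * Real.log (n / h)) / (n:ℝ)^2) := by positivity
  linarith

end D0H96.RG
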