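import Pool.Agent.D0H96.RG.Cont
import Pool.Agent.D0H96.RG.Mix

/-!
Regularity of the crossing probabilities of rectangles: the derivative in the width of every scaling limit
is log-Lipschitz in the height.
-/

set_option maxHeartbeats 1000000

namespace D0H96.RG

open Filter Topology

theorem floor_tendsto {δ : ℕ → ℝ} (hδ : ∀ k, 0 < δ k) (h0 : Tendsto δ atTop (𝓝 0)) {b : ℝ} (hb : 0 < b) :
    Tendsto (fun k => δ k * ((⌊b / δ k⌋₊ : ℕ) : ℝ)) atTop (𝓝 b) := by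
  have l1 : Tendsto (fun k => b - δ k) atTop (𝓝 (b - 0)) := tendsto_const_nhds.sub h0
  rw [sub_zero] at l1
  refine tendsto_of_tendsto_of_tendsto_of_le_of_le l1 tendsto_const_nhds ?_ ?_
  · intro k
    have := (flo hb (hδ k)).2
    have h2 : b / δ k * δ k = b := div_mul_cancel₀ _ (hδ k).ne'
    have h3 := hδ k
    show b - δ k ≤ δ k * ((⌊b / δ k⌋₊ : ℕ) : ℝ)
    nlinarith
  · intro k
    have := (flo hb (hδ k)).1
    have h2 : b / δ k * δ k = b := div_mul_cancel₀ _ (hδ k).ne'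
    have h3 := hδ k
    show δ k * ((⌊b / δ k⌋₊ : ℕ) : ℝ) ≤ b
    nlinarith

theorem lim_mix {K : ℕ} (hK : 1 ≤ K) {C : ℝ} (hC : 0 < C)
    (H : ∀ m n : ℕ, 2 ≤ m → 1 ≤ n → n ≤ 2 * K * m → m ≤ 2 * K * n → ∀ h : ℕ, 1 ≤ h → h ≤ n →
      |Q m (n+h) - Q m n| ≤ C * h * (1 + Real.log (n / h)) / (n:ℝ)^2)
    {δ : ℕ → ℝ} {F : ℝ → ℝ → ℝ} (hL : IsLim δ F) {a b b' : ℝ} (ha : 0 < a) (hb : 0 < b)
    (hba : b ≤ K * a) (hab : a ≤ K * b) (h1 : b < b') (h2 : b' < 2 * b) :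
    |deriv (fun x => F x b') a - deriv (fun x => F x b) a| ≤
      C * (b' - b) * (1 + Real.log (b / (b' - b))) / b^2 := by
  have hδ := hL.1
  have h0 := hL.2.1
  have hb' : 0 < b' := by linarith
  have hs : 0 < b' - b := by linarith
  have hK0 : (1:ℝ) ≤ K := by exact_mod_cast hK
  have D1 := (width_deriv hL ha hb').2
  have D2 := (width_deriv hL ha hb).2
  have fa := floor_tendsto hδ h0 ha
  have fb := floor_tendsto hδ h0 hb
  have fb' := floor_tendsto hδ h0 hb'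
  have hD := (D1.sub D2).abs
  have e0 : |-deriv (fun x => F x b') a - -deriv (fun x => F x b) a| =
      |deriv (fun x => F x b') a - deriv (fun x => F x b) a| := by
    rw [← abs_neg]; congr 1; ring
  rw [e0] at hD
  have fs : Tendsto (fun k => δ k * ((⌊b' / δ k⌋₊ : ℕ) : ℝ) - δ k * ((⌊b / δ k⌋₊ : ℕ) : ℝ)) atTop
      (𝓝 (b' - b)) := fb'.sub fb
  have hR : Tendsto (fun k => C * (δ k * ((⌊b' / δ k⌋₊ : ℕ) : ℝ) - δ k * ((⌊b / δ k⌋₊ : ℕ) : ℝ)) *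
      (1 + Real.log ((δ k * ((⌊b / δ k⌋₊ : ℕ) : ℝ)) /
        (δ k * ((⌊b' / δ k⌋₊ : ℕ) : ℝ) - δ k * ((⌊b / δ k⌋₊ : ℕ) : ℝ)))) /
      (δ k * ((⌊b / δ k⌋₊ : ℕ) : ℝ))^2) atTop
      (𝓝 (C * (b' - b) * (1 + Real.log (b / (b' - b))) / b^2)) := by
    refine Tendsto.div ((tendsto_const_nhds.mul fs).mul (tendsto_const_nhds.add
      (Tendsto.log (fb.div fs hs.ne') (by positivity)))) (fb.pow 2) (by positivity)
  refine le_of_tendsto_of_tendsto hD hR ?_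
  have ev1 : ∀ᶠ k in atTop, δ k < a / 4 := h0.eventually (gt_mem_nhds (by positivity))
  have ev2 : ∀ᶠ k in atTop, δ k < b / 2 := h0.eventually (gt_mem_nhds (by positivity))
  have ev3 : ∀ᶠ k in atTop, 0 < δ k * ((⌊b' / δ k⌋₊ : ℕ) : ℝ) - δ k * ((⌊b / δ k⌋₊ : ℕ) : ℝ) :=
    fs.eventually (lt_mem_nhds hs)
  have ev4 : ∀ᶠ k in atTop, δ k * ((⌊b' / δ k⌋₊ : ℕ) : ℝ) - δ k * ((⌊b / δ k⌋₊ : ℕ) : ℝ) -
      δ k * ((⌊b / δ k⌋₊ : ℕ) : ℝ) < 0 :=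
    (fs.sub fb).eventually (gt_mem_nhds (by linarith))
  have ev5 : ∀ᶠ k in atTop, δ k * ((⌊b / δ k⌋₊ : ℕ) : ℝ) - 2 * K * (δ k * ((⌊a / δ k⌋₊ : ℕ) : ℝ)) < 0 :=
    (fb.sub (tendsto_const_nhds.mul fa)).eventually (gt_mem_nhds (by nlinarith))
  have ev6 : ∀ᶠ k in atTop, δ k * ((⌊a / δ k⌋₊ : ℕ) : ℝ) - 2 * K * (δ k * ((⌊b / δ k⌋₊ : ℕ) : ℝ)) < 0 :=
    (fa.sub (tendsto_const_nhds.mul fb)).eventually (gt_mem_nhds (by nlinarith))
  filter_upwards [ev1, ev2, ev3, ev4, ev5, ev6] with k g1 g2 g3 g4 g5 g6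
  have hk := hδ k
  obtain ⟨m, hm⟩ : ∃ m : ℕ, m = ⌊a / δ k⌋₊ := ⟨_, rfl⟩
  obtain ⟨n, hn⟩ : ∃ n : ℕ, n = ⌊b / δ k⌋₊ := ⟨_, rfl⟩
  obtain ⟨n', hn'⟩ : ∃ n' : ℕ, n' = ⌊b' / δ k⌋₊ := ⟨_, rfl⟩
  unfold qd
  rw [← hm, ← hn, ← hn']
  rw [← hn, ← hn'] at g3 g4
  rw [← hm, ← hn] at g5 g6
  have m2 : 2 ≤ m := by
    have h3 := half_le ha hk (by linarith)
    rw [← hm] at h3
    have h4 : 2 ≤ a / (2 * δ k) := by rw [le_div_iff₀ (by positivity)]; linarith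
    exact_mod_cast h4.trans h3
  have n1 : 1 ≤ n := by
    rw [hn]; exact one_le hb hk (by linarith)
  have c1 : n < n' := by
    have : (n:ℝ) < n' := by nlinarith
    exact_mod_cast this
  obtain ⟨h, rfl⟩ : ∃ h : ℕ, n' = n + h := ⟨n' - n, by omega⟩
  have c2 : h ≤ n := by
    push_cast at g4
    have : (h:ℝ) < n := by nlinarith
    exact_mod_cast this.le
  have c3 : n ≤ 2 * K * m := by
    have : (n:ℝ) < 2 * K * m := by nlinarith
    exact_mod_cast this.le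
  have c4 : m ≤ 2 * K * n := by
    have : (m:ℝ) < 2 * K * n := by nlinarith
    exact_mod_cast this.le
  have h3 := H m n m2 n1 c3 c4 h (by omega) c2
  have h4 : |Q m (n + h) / δ k - Q m n / δ k| = |Q m (n + h) - Q m n| / δ k := by
    rw [← sub_div, abs_div, abs_of_pos hk]
  rw [h4]
  have hh0 : (0:ℝ) < h := by
    have : 0 < h := by omega
    exact_mod_cast this
  have hn0 : (0:ℝ) < n := by exact_mod_cast n1
  refine (div_le_div_of_nonneg_right h3 hk.le).trans (le_of_eq ?_)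
  have e1 : δ k * ((n + h : ℕ) : ℝ) - δ k * n = δ k * h := by push_cast; ring
  rw [e1, mul_div_mul_left _ _ hk.ne']
  field_simp

end D0H96.RG
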