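import Pool.Agent.D0H96.RG.Geo

/-!
Regularity of the crossing probabilities of rectangles in the aspect ratio: probabilities.
-/

set_option maxHeartbeats 400000

namespace D0H96.RG

open H974 Finset

theorem ok2 : Ok (fun _ : Edg => (1/2:ℝ)) := okq (by norm_num) (by norm_num)

/-- The probability of the right end event. -/
noncomputable def phi (r h : ℤ) : ℝ := Pr (fun _ => (1/2:ℝ)) (LRE (-r) 1 0 h) (RL (-r) 0 h)

theorem phi_nonneg (r h : ℤ) : 0 ≤ phi r h := Pr_nonneg ok2 _ _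

theorem RL_local {a k h : ℤ} {F S : Finset Edg} (hS : LRE a (k+1) 0 h ⊆ S) :
    RL a k h F ↔ RL a k h (F ∩ S) := by
  unfold RL
  rw [coe_inter_eq hS, coe_inter_eq ((LRE_mono le_rfl (by omega)).trans hS)]

theorem LL_local {j b h : ℤ} {F S : Finset Edg} (hS : LRE (j-1) b 0 h ⊆ S) :
    LL j b h F ↔ LL j b h (F ∩ S) := by
  unfold LL
  rw [coe_inter_eq hS, coe_inter_eq ((LRE_mono (by omega) le_rfl).trans hS)]

theorem reach_trl {F : Finset Edg} {a b h s : ℤ} {u v : Vtx} :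
    Reach (↑((trl s 0).mp F) ∩ ↑(LRE (a+s) (b+s) 0 h)) (u.1 + s, u.2) (v.1 + s, v.2) ↔
      Reach (↑F ∩ ↑(LRE a b 0 h)) u v := by
  have h1 := (trl s 0).reach_iff (F := (↑F ∩ ↑(LRE a b 0 h) : Set Edg)) (u := u) (v := v)
  rw [LSym.image_inter, trl_LRE] at h1
  simpa [trl] using h1

theorem reach_rfx {F : Finset Edg} {a b h c : ℤ} {u v : Vtx} :
    Reach (↑((rfx c).mp F) ∩ ↑(LRE (c-b) (c-a) 0 h)) (c - u.1, u.2) (c - v.1, v.2) ↔
      Reach (↑F ∩ ↑(LRE a b 0 h)) u v := by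
  have h1 := (rfx c).reach_iff (F := (↑F ∩ ↑(LRE a b 0 h) : Set Edg)) (u := u) (v := v)
  rw [LSym.image_inter, rfx_LRE] at h1
  simpa [rfx] using h1

theorem RL_trl {a k h s : ℤ} {F : Finset Edg} :
    RL (a+s) (k+s) h ((trl s 0).mp F) ↔ RL a k h F := by
  unfold RL
  have e : ∀ y z : ℤ, Reach (↑((trl s 0).mp F) ∩ ↑(LRE (a+s) (k+s) 0 h)) (a+s, y) (k+s, z) ↔
      Reach (↑F ∩ ↑(LRE a k 0 h)) (a, y) (k, z) := fun y z => reach_trl (u := (a, y)) (v := (k, z))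
  have e' : ∀ y z : ℤ, Reach (↑((trl s 0).mp F) ∩ ↑(LRE (a+s) (k+s+1) 0 h)) (a+s, y) (k+s+1, z) ↔
      Reach (↑F ∩ ↑(LRE a (k+1) 0 h)) (a, y) (k+1, z) := by
    intro y z
    have := reach_trl (F := F) (a := a) (b := k+1) (h := h) (s := s) (u := (a, y)) (v := (k+1, z))
    simp only at this
    rw [show k + 1 + s = k + s + 1 by ring] at this
    exact this
  simp only [e, e']

theorem LL_rfx {j b h c : ℤ} {F : Finset Edg} :
    LL j b h ((rfx c).mp F) ↔ RL (c - b) (c - j) h F := by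
  unfold RL LL
  have e : ∀ y z : ℤ, Reach (↑((rfx c).mp F) ∩ ↑(LRE j b 0 h)) (b, y) (j, z) ↔
      Reach (↑F ∩ ↑(LRE (c-b) (c-j) 0 h)) (c-b, y) (c-j, z) := by
    intro y z
    have := reach_rfx (F := F) (a := c-b) (b := c-j) (h := h) (c := c) (u := (c-b, y))
      (v := (c-j, z))
    simp only [sub_sub_cancel] at this
    exact this
  have e' : ∀ y z : ℤ, Reach (↑((rfx c).mp F) ∩ ↑(LRE (j-1) b 0 h)) (b, y) (j-1, z) ↔
      Reach (↑F ∩ ↑(LRE (c-b) (c-j+1) 0 h)) (c-b, y) (c-j+1, z) := by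
    intro y z
    have := reach_rfx (F := F) (a := c-b) (b := c-j+1) (h := h) (c := c) (u := (c-b, y))
      (v := (c-j+1, z))
    simp only [sub_sub_cancel] at this
    rw [show c - (c - j + 1) = j - 1 by ring] at this
    exact this
  simp only [e, e']

theorem pr_RL {a k h : ℤ} {U : Finset Edg} (hU : LRE a (k+1) 0 h ⊆ U) :
    Pr (fun _ => (1/2:ℝ)) U (RL a k h) = phi (k - a) h := by
  rw [Pr_local (A := RL a k h) hU (fun F _ => RL_local (Finset.Subset.refl _))]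
  unfold phi
  have h1 : LRE a (k+1) 0 h = (trl k 0).mp (LRE (-(k-a)) 1 0 h) := by
    rw [trl_LRE]; congr 1 <;> ring
  rw [h1, LSym.pr]
  apply Pr_congr
  intro F _
  have := RL_trl (a := -(k-a)) (k := 0) (h := h) (s := k) (F := F)
  rw [show -(k-a) + k = a by ring, zero_add] at this
  exact this

theorem pr_LL {j b h : ℤ} {U : Finset Edg} (hU : LRE (j-1) b 0 h ⊆ U) :
    Pr (fun _ => (1/2:ℝ)) U (LL j b h) = phi (b - j) h := by
  rw [Pr_local (A := LL j b h) hU (fun F _ => LL_local (Finset.Subset.refl _))]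
  have h1 : LRE (j-1) b 0 h = (rfx 0).mp (LRE (0-b) (0-j+1) 0 h) := by
    rw [rfx_LRE]; congr 1 <;> ring
  rw [h1, LSym.pr]
  have h2 : phi (b - j) h = Pr (fun _ => (1/2:ℝ)) (LRE (0-b) (0-j+1) 0 h) (RL (0-b) (0-j) h) := by
    rw [pr_RL (Finset.Subset.refl _)]; congr 1; ring
  rw [h2]
  apply Pr_congr
  intro F _
  exact LL_rfx

theorem Pr_and_not {S : Finset Edg} {A B : Finset Edg → Prop} (hBA : ∀ F, F ⊆ S → B F → A F) :
    Pr (fun _ => (1/2:ℝ)) S (fun F => A F ∧ ¬ B F) =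
      Pr (fun _ => (1/2:ℝ)) S A - Pr (fun _ => (1/2:ℝ)) S B := by
  unfold Pr
  rw [← Ex_sub]
  apply Ex_congr
  intro F hF
  by_cases hB : B F
  · rw [ind_of hB, ind_of (hBA F hF hB), ind_not_of (fun h => h.2 hB)]; ring
  · by_cases hA : A F
    · rw [ind_not_of hB, ind_of hA, ind_of ⟨hA, hB⟩]; ring
    · rw [ind_not_of hB, ind_not_of hA, ind_not_of (fun h => hA h.1)]; ring

theorem disj {a b b' c h : ℤ} (hb : b ≤ b') : Disjoint (LRE a b 0 h) (LRE b' c 0 h) := by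
  rw [Finset.disjoint_left]
  rintro ⟨x, y, _ | _⟩ h1 h2
  · simp only [mem_LRE_false] at h1 h2; omega
  · simp only [mem_LRE_true] at h1 h2; omega

/-- The counting bound for the right end events. -/
theorem phi_count {J : ℕ} (hJ : 1 ≤ J) {h : ℤ} (hlt : hh (1/2) J h < 1) :
    (J:ℝ) * phi (2 * J) h ≤ 2 / (1 - hh (1/2) J h)^2 := by
  classical
  set U := LRE (-(2 * (J:ℤ))) J 0 h with hU
  set S := LRE (-(J:ℤ)) 0 0 h with hS
  have hSU : S ⊆ U := LRE_mono (by omega) (by omega)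
  have e1 : ∀ k ∈ Finset.range J, Pr (fun _ => (1/2:ℝ)) U (RL (k - 2 * J) k h) = phi (2 * J) h := by
    intro k hk
    rw [Finset.mem_range] at hk
    rw [pr_RL (LRE_mono (by omega) (by omega))]
    congr 1; ring
  have e2 : (J:ℝ) * phi (2 * J) h =
      Ex (fun _ => (1/2:ℝ)) U (fun F => ∑ k ∈ Finset.range J, ind (RL (k - 2 * J) k h F)) := by
    rw [Ex_sum]
    have e0 := Finset.sum_congr rfl e1
    unfold Pr at e0
    rw [e0, Finset.sum_const, Finset.card_range, nsmul_eq_mul]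
  have e3 : Ex (fun _ => (1/2:ℝ)) U (fun F => ∑ k ∈ Finset.range J, ind (RL (k - 2 * J) k h F)) ≤
      Ex (fun _ => (1/2:ℝ)) U (fun F => ((NC src tgt (col (-J) h) (↑(col 0 h))
        (↑(F ∩ S) : Set Edg) : ℕ) : ℝ)^2) := by
    apply Ex_mono ok2
    intro F _
    have h1 := count hJ (h := h) F
    have h2 : ∑ k ∈ Finset.range J, ind (RL (k - 2 * J) k h F) =
        (((Finset.range J).filter (fun k : ℕ => RL (k - 2 * J) k h F)).card : ℝ) := by
      rw [Finset.card_filter]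
      push_cast
      apply Finset.sum_congr rfl
      intro k _
      unfold ind
      split_ifs <;> simp_all
    rw [h2]
    have h3 : (((Finset.range J).filter (fun k : ℕ => RL (k - 2 * J) k h F)).card : ℝ) ≤
        ((NC src tgt (col (-J) h) (↑(col 0 h)) (↑(F ∩ S) : Set Edg) : ℕ) : ℝ) := by
      exact_mod_cast h1
    refine h3.trans ?_
    have h4 : NC src tgt (col (-J) h) (↑(col 0 h)) (↑(F ∩ S) : Set Edg) ≤
        (NC src tgt (col (-J) h) (↑(col 0 h)) (↑(F ∩ S) : Set Edg))^2 := Nat.le_self_pow (by norm_num) _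
    exact_mod_cast h4
  have e4 : Ex (fun _ => (1/2:ℝ)) U (fun F => ((NC src tgt (col (-J) h) (↑(col 0 h))
        (↑(F ∩ S) : Set Edg) : ℕ) : ℝ)^2) =
      Ex (fun _ => (1/2:ℝ)) S (fun F => ((NC src tgt (col (-J) h) (↑(col 0 h))
        (↑F : Set Edg) : ℕ) : ℝ)^2) := by
    rw [Ex_local hSU (fun F _ => by rw [Finset.inter_assoc, Finset.inter_self])]
    apply Ex_congr
    intro F hF
    rw [Finset.inter_eq_left.mpr hF]
  rw [e2]
  refine e3.trans (e4.trans_le ?_)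
  refine NC_sq ok2 S src tgt _ _ hlt ?_
  have e5 : hh (1/2) J h = Pr (fun _ => (1/2:ℝ)) S (LRc (-J) 0 0 h) := by
    rw [pr_LRc (1/2) (Finset.Subset.refl _)]; simp
  rw [e5]
  apply Pr_mono ok2
  rintro F hF ⟨x, hx, b, hb, hr⟩
  obtain ⟨y, hy, rfl⟩ := mem_col.mp hx
  rw [Finset.mem_coe] at hb
  obtain ⟨z, hz, rfl⟩ := mem_col.mp hb
  refine ⟨y, z, hy, hz, Reach.mono ?_ hr⟩
  intro e he
  exact ⟨he, hF he⟩

theorem first_diff {m a h : ℤ} {U : Finset Edg} (hm : 1 ≤ m) (hU : LRE a (m+a+1) 0 h ⊆ U) :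
    Pr (fun _ => (1/2:ℝ)) U (fun F => LRc a (m+a) 0 h F ∧ ¬ LRc a (m+a+1) 0 h F) =
      hh (1/2) m h - hh (1/2) (m+1) h := by
  rw [Pr_and_not (fun F _ => LRc_sub le_rfl (by omega) (by omega) le_rfl le_rfl),
    pr_LRc (1/2) ((LRE_mono le_rfl (by omega)).trans hU), pr_LRc (1/2) hU]
  congr 2 <;> ring

theorem low {m h : ℤ} {J : ℕ} (hJ : 1 ≤ J) (hJm : (J:ℤ) ≤ m) :
    hh (1/2) m h * (1 - hh (1/2) J h) ≤ J * (hh (1/2) m h - hh (1/2) (m+1) h) := by
  set U := LRE 0 (m+J) 0 h with hU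
  have e1 : ∀ a ∈ Finset.range J, Pr (fun _ => (1/2:ℝ)) U
      (fun F => LRc a (m+a) 0 h F ∧ ¬ LRc a (m+a+1) 0 h F) =
      hh (1/2) m h - hh (1/2) (m+1) h := by
    intro a ha
    rw [Finset.mem_range] at ha
    exact first_diff (by omega) (LRE_mono (by omega) (by omega))
  have e2 : (J:ℝ) * (hh (1/2) m h - hh (1/2) (m+1) h) =
      Ex (fun _ => (1/2:ℝ)) U (fun F => ∑ a ∈ Finset.range J,
        ind (LRc a (m+a) 0 h F ∧ ¬ LRc a (m+a+1) 0 h F)) := by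
    rw [Ex_sum]
    have e0 := Finset.sum_congr rfl e1
    unfold Pr at e0
    rw [e0, Finset.sum_const, Finset.card_range, nsmul_eq_mul]
  have e3 : Pr (fun _ => (1/2:ℝ)) U (fun F => LRc 0 m 0 h F ∧ ¬ LRc m (m+J) 0 h F) =
      hh (1/2) m h * (1 - hh (1/2) J h) := by
    have s1 : LRE 0 m 0 h ⊆ U := LRE_mono le_rfl (by omega)
    have s2 : LRE m (m+J) 0 h ⊆ U := LRE_mono (by omega) le_rfl
    have k1 := Pr_indep (p := fun _ : Edg => (1/2:ℝ)) (A := LRc 0 m 0 h)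
      (B := fun F => ¬ LRc m (m+J) 0 h F) s1 s2 (disj le_rfl)
      (fun F _ => LRc_local (Finset.Subset.refl _))
      (fun F _ => not_congr (LRc_local (Finset.Subset.refl _)))
    have k2 := pr_LRc (1/2) s1
    have k3 := pr_LRc (1/2) s2
    have k4 := Pr_not (p := fun _ : Edg => (1/2:ℝ)) U (LRc m (m+J) 0 h)
    have k5 : m + (J:ℤ) - m = J := by ring
    rw [k5] at k3
    rw [sub_zero, sub_zero] at k2
    rw [sub_zero] at k3
    rw [k1, k4, k2, k3]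
  rw [← e3, e2]
  apply Ex_mono ok2
  intro F _
  by_cases hF : LRc 0 m 0 h F ∧ ¬ LRc m (m+J) 0 h F
  · rw [ind_of hF]
    obtain ⟨a, ha, h1⟩ := exists_zero hJ hJm hF.1 hF.2
    have h2 := Finset.single_le_sum
      (f := fun a : ℕ => ind (LRc a (m+a) 0 h F ∧ ¬ LRc a (m+a+1) 0 h F))
      (fun i _ => ind_nonneg _) ha
    rw [ind_of h1] at h2
    exact h2
  · rw [ind_not_of hF]
    exact Finset.sum_nonneg (fun i _ => ind_nonneg _)

theorem up1 {m r h : ℤ} (hr : 0 < r) (hm : r < m) :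
    hh (1/2) m h - hh (1/2) (m+1) h ≤ hh (1/2) (m-r) h * phi r h := by
  have e1 := first_diff (m := m) (a := 0) (h := h) (by omega) (Finset.Subset.refl _)
  rw [add_zero] at e1
  rw [← e1]
  have e2 : Pr (fun _ => (1/2:ℝ)) (LRE 0 (m+1) 0 h)
      (fun F => LRc 0 (m-r) 0 h F ∧ RL (m-r) m h F) = hh (1/2) (m-r) h * phi r h := by
    have s1 : LRE 0 (m-r) 0 h ⊆ LRE 0 (m+1) 0 h := LRE_mono le_rfl (by omega)
    have s2 : LRE (m-r) (m+1) 0 h ⊆ LRE 0 (m+1) 0 h := LRE_mono (by omega) le_rfl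
    have k1 := Pr_indep (p := fun _ : Edg => (1/2:ℝ)) (A := LRc 0 (m-r) 0 h)
      (B := RL (m-r) m h) s1 s2 (disj le_rfl)
      (fun F _ => LRc_local (Finset.Subset.refl _))
      (fun F _ => RL_local (Finset.Subset.refl _))
    have k2 := pr_LRc (1/2) s1
    have k3 := pr_RL s2
    rw [sub_zero, sub_zero] at k2
    rw [sub_sub_cancel] at k3
    rw [k1, k2, k3]
  rw [← e2]
  apply Pr_mono ok2
  rintro F _ ⟨h1, h2⟩
  exact ⟨LRc_sub le_rfl (by omega) (by omega) le_rfl le_rfl h1,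
    RL_of (by omega) (by omega) h1 h2⟩

theorem up2 {m r h : ℤ} (hr : 0 < r) (hm : 2 * r < m) :
    |hh (1/2) m h - 2 * hh (1/2) (m+1) h + hh (1/2) (m+2) h| ≤
      phi r h * hh (1/2) (m - 2 * r) h * phi r h := by
  set U := LRE 0 (m+2) 0 h with hU
  have e1 : hh (1/2) m h = Pr (fun _ => (1/2:ℝ)) U (LRc 1 (m+1) 0 h) := by
    rw [pr_LRc (1/2) (LRE_mono (by omega) (by omega))]; congr 1 <;> ring
  have e2 : hh (1/2) (m+1) h = Pr (fun _ => (1/2:ℝ)) U (LRc 0 (m+1) 0 h) := by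
    rw [pr_LRc (1/2) (LRE_mono (by omega) (by omega))]; congr 1 <;> ring
  have e3 : hh (1/2) (m+1) h = Pr (fun _ => (1/2:ℝ)) U (LRc 1 (m+2) 0 h) := by
    rw [pr_LRc (1/2) (LRE_mono (by omega) (by omega))]; congr 1 <;> ring
  have e4 : hh (1/2) (m+2) h = Pr (fun _ => (1/2:ℝ)) U (LRc 0 (m+2) 0 h) := by
    rw [pr_LRc (1/2) (LRE_mono (by omega) (by omega))]; congr 1 <;> ring
  have e5 : hh (1/2) m h - 2 * hh (1/2) (m+1) h + hh (1/2) (m+2) h =
      Ex (fun _ => (1/2:ℝ)) U (fun F => ind (LRc 1 (m+1) 0 h F) - ind (LRc 0 (m+1) 0 h F) -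
        ind (LRc 1 (m+2) 0 h F) + ind (LRc 0 (m+2) 0 h F)) := by
    rw [Ex_add, Ex_sub, Ex_sub]
    show _ = Pr (fun _ => (1/2:ℝ)) U (LRc 1 (m+1) 0 h) - Pr (fun _ => (1/2:ℝ)) U (LRc 0 (m+1) 0 h)
      - Pr (fun _ => (1/2:ℝ)) U (LRc 1 (m+2) 0 h) + Pr (fun _ => (1/2:ℝ)) U (LRc 0 (m+2) 0 h)
    linarith
  have e6 : Pr (fun _ => (1/2:ℝ)) U
      (fun F => (LL 1 (1+r) h F ∧ LRc (1+r) (m+1-r) 0 h F) ∧ RL (m+1-r) (m+1) h F) =
      phi r h * hh (1/2) (m - 2 * r) h * phi r h := by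
    have s1 : LRE (1-1) (1+r) 0 h ⊆ LRE 0 (m+1-r) 0 h := LRE_mono (by omega) (by omega)
    have s2 : LRE (1+r) (m+1-r) 0 h ⊆ LRE 0 (m+1-r) 0 h := LRE_mono (by omega) (by omega)
    have s3 : LRE 0 (m+1-r) 0 h ⊆ U := LRE_mono le_rfl (by omega)
    have s4 : LRE (m+1-r) (m+1+1) 0 h ⊆ U := LRE_mono (by omega) (by omega)
    have k1 := Pr_indep (p := fun _ : Edg => (1/2:ℝ))
      (A := fun F => LL 1 (1+r) h F ∧ LRc (1+r) (m+1-r) 0 h F)
      (B := RL (m+1-r) (m+1) h) s3 s4 (disj le_rfl)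
      (fun F _ => and_congr (LL_local s1) (LRc_local s2))
      (fun F _ => RL_local (Finset.Subset.refl _))
    have k2 := Pr_indep (p := fun _ : Edg => (1/2:ℝ))
      (A := LL 1 (1+r) h) (B := LRc (1+r) (m+1-r) 0 h) (s1.trans s3)
        (s2.trans s3) (disj le_rfl) (fun F _ => LL_local (Finset.Subset.refl _))
        (fun F _ => LRc_local (Finset.Subset.refl _))
    have k3 := pr_LL (s1.trans s3)
    have k4 := pr_LRc (1/2) (s2.trans s3)
    have k5 := pr_RL s4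
    rw [show 1 + r - 1 = r by ring] at k3
    rw [show m + 1 - r - (1 + r) = m - 2 * r by ring, sub_zero] at k4
    rw [show m + 1 - (m + 1 - r) = r by ring] at k5
    rw [k1, k2, k3, k4, k5]
  rw [← e6, e5]
  have habs : |Ex (fun _ => (1/2:ℝ)) U (fun F => ind (LRc 1 (m+1) 0 h F) -
        ind (LRc 0 (m+1) 0 h F) - ind (LRc 1 (m+2) 0 h F) + ind (LRc 0 (m+2) 0 h F))| ≤
      Ex (fun _ => (1/2:ℝ)) U (fun F => |ind (LRc 1 (m+1) 0 h F) - ind (LRc 0 (m+1) 0 h F) -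
        ind (LRc 1 (m+2) 0 h F) + ind (LRc 0 (m+2) 0 h F)|) := by
    rw [abs_le]
    constructor
    · rw [neg_le_iff_add_nonneg, ← Ex_add]
      apply Ex_nonneg ok2
      intro F _
      have := neg_abs_le (ind (LRc 1 (m+1) 0 h F) - ind (LRc 0 (m+1) 0 h F) -
        ind (LRc 1 (m+2) 0 h F) + ind (LRc 0 (m+2) 0 h F))
      linarith
    · exact Ex_mono ok2 (fun F _ => le_abs_self _)
  exact habs.trans (Ex_mono ok2 (fun F _ => second_diff hr hm))

end D0H96.RG
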