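import Pool.Agent.D0H96.RG.Fin
import Pool.Agent.D0H96.RG.Hgt

/-!
Regularity of the crossing probabilities of rectangles in the aspect ratio: structure of the
scaling limits.
-/

set_option maxHeartbeats 1000000

namespace D0H96.RG

open Filter Topology

variable {δ : ℕ → ℝ} {F : ℝ → ℝ → ℝ}

/-- `F` is the limit of the crossing probabilities along the meshes `δ`. -/
def IsLim (δ : ℕ → ℝ) (F : ℝ → ℝ → ℝ) : Prop :=
  (∀ k, 0 < δ k) ∧ Tendsto δ atTop (𝓝 0) ∧
    ∀ a b : ℝ, 0 < a → 0 < b → Tendsto (fun k => pd (δ k) a b) atTop (𝓝 (F a b))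

theorem width_struct {K : ℕ} {C : ℝ} (hC : 0 < C)
    (H1 : ∀ m n : ℕ, 1 ≤ n → n ≤ K * m → n * (P m n - P (m+1) n) ≤ C * P m n)
    (H : ∀ m n : ℕ, 1 ≤ n → n ≤ K * m →
      (n:ℝ)^2 * |P m n - 2 * P (m+1) n + P (m+2) n| ≤ C * P m n)
    (hL : IsLim δ F) {x0 b : ℝ} (hx0 : 0 < x0) (hb : 0 < b) (hK : 2 * b ≤ K * x0) :
    ∃ L : ℝ → ℝ, (∀ x, x0 < x → Tendsto (fun k => qd (δ k) x b) atTop (𝓝 (L x))) ∧
      ∀ x y, x0 < x → x0 < y → |F x b - F y b - (y - x) * L x| ≤ 8 * C / b^2 * (y - x)^2 := by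
  obtain ⟨hδ, h0, hF⟩ := hL
  apply taylor_lim (u := fun k x => pd (δ k) x b) (D := fun k x => qd (δ k) x b)
    (F := fun x => F x b) (e := fun k => 6 * C / b * δ k) (by positivity)
  · have := h0.const_mul (6 * C / b)
    rwa [mul_zero] at this
  · have s0 : 0 < min (x0 / 2) (b / 2) := lt_min (by positivity) (by positivity)
    filter_upwards [h0.eventually_lt_const s0] with k hk x y hx hy
    exact taylor_mesh hC H1 H hx0 hb (hδ k) (hk.le.trans (min_le_left _ _))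
      (hk.le.trans (min_le_right _ _)) hK hx hy
  · intro x hx
    exact hF x b (hx0.trans hx) hb

theorem height_struct {K : ℕ} {C : ℝ} (hC : 0 < C)
    (H1 : ∀ m n : ℕ, 1 ≤ n → n ≤ K * m → n * (P m n - P (m+1) n) ≤ C * P m n)
    (H : ∀ m n : ℕ, 1 ≤ n → n ≤ K * m →
      (n:ℝ)^2 * |P m n - 2 * P (m+1) n + P (m+2) n| ≤ C * P m n)
    (hL : IsLim δ F) {x0 b : ℝ} (hx0 : 0 < x0) (hb : 0 < b) (hK : 2 * b ≤ K * x0) :
    ∃ L : ℝ → ℝ, (∀ x, x0 < x → Tendsto (fun k => hd (δ k) b x) atTop (𝓝 (L x))) ∧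
      ∀ x y, x0 < x → x0 < y →
        |(1 - F b x) - (1 - F b y) - (y - x) * L x| ≤ 32 * C / b^2 * (y - x)^2 := by
  obtain ⟨hδ, h0, hF⟩ := hL
  apply taylor_lim (u := fun k x => 1 - pd (δ k) b x) (D := fun k x => hd (δ k) b x)
    (F := fun x => 1 - F b x) (e := fun k => 12 * C / b * δ k) (by positivity)
  · have := h0.const_mul (12 * C / b)
    rwa [mul_zero] at this
  · have s0 : 0 < min (x0 / 2) (b / 4) := lt_min (by positivity) (by positivity)
    filter_upwards [h0.eventually_lt_const s0] with k hk x y hx hy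
    exact taylor_height hC H1 H hx0 hb (hδ k) (hk.le.trans (min_le_left _ _))
      (hk.le.trans (min_le_right _ _)) hK hx hy
  · intro x hx
    exact (hF b x hb (hx0.trans hx)).const_sub 1

theorem width_deriv (hL : IsLim δ F) {a b : ℝ} (ha : 0 < a) (hb : 0 < b) :
    DifferentiableAt ℝ (fun x => F x b) a ∧
      Tendsto (fun k => qd (δ k) a b) atTop (𝓝 (-deriv (fun x => F x b) a)) := by
  obtain ⟨K, hK⟩ := exists_nat_ge (4 * b / a)
  rw [div_le_iff₀ ha] at hK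
  have hKpos : 1 ≤ K := by
    rcases Nat.eq_zero_or_pos K with h | h
    · rw [h] at hK; simp only [Nat.cast_zero, zero_mul] at hK; linarith
    · exact h
  obtain ⟨c, C, hc, hC, H⟩ := mainP K hKpos
  obtain ⟨L, hL1, hL2⟩ := width_struct hC (fun m n h1 h2 => (H m n h1 h2).2.1)
    (fun m n h1 h2 => (H m n h1 h2).2.2) hL (x0 := a/2) (by positivity) hb (by linarith)
  have h1 := deriv_of_taylor (F := fun x => F x b) (x := a) (by positivity) (by linarith) hL2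
  refine ⟨h1.differentiableAt, ?_⟩
  rw [h1.deriv, neg_neg]
  exact hL1 a (by linarith)

theorem height_deriv (hL : IsLim δ F) {a b : ℝ} (ha : 0 < a) (hb : 0 < b) :
    DifferentiableAt ℝ (fun y => F a y) b ∧
      Tendsto (fun k => hd (δ k) a b) atTop (𝓝 (deriv (fun y => F a y) b)) := by
  obtain ⟨K, hK⟩ := exists_nat_ge (4 * a / b)
  rw [div_le_iff₀ hb] at hK
  have hKpos : 1 ≤ K := by
    rcases Nat.eq_zero_or_pos K with h | h
    · rw [h] at hK; simp only [Nat.cast_zero, zero_mul] at hK; linarith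
    · exact h
  obtain ⟨c, C, hc, hC, H⟩ := mainP K hKpos
  obtain ⟨L, hL1, hL2⟩ := height_struct hC (fun m n h1 h2 => (H m n h1 h2).2.1)
    (fun m n h1 h2 => (H m n h1 h2).2.2) hL (x0 := b/2) (by positivity) ha (by linarith)
  have h1 := deriv_of_taylor (F := fun y => 1 - F a y) (x := b) (by positivity) (by linarith) hL2
  have h2 : HasDerivAt (fun y => F a y) (L b) b := by
    have := h1.const_sub 1
    simp only [sub_sub_cancel, neg_neg] at this
    exact this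
  refine ⟨h2.differentiableAt, ?_⟩
  rw [h2.deriv]
  exact hL1 b (by linarith)

/-- Duality in the limit. -/
theorem lim_dual (hL : IsLim δ F) {a b : ℝ} (ha : 0 < a) (hb : 0 < b) : F a b + F b a = 1 := by
  obtain ⟨K, hK⟩ := exists_nat_ge (max (4 * b / a) (4 * a / b))
  have hK1 : 4 * b / a ≤ K := (le_max_left _ _).trans hK
  have hK2 : 4 * a / b ≤ K := (le_max_right _ _).trans hK
  rw [div_le_iff₀ ha] at hK1
  rw [div_le_iff₀ hb] at hK2
  have hKpos : 1 ≤ K := by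
    rcases Nat.eq_zero_or_pos K with h | h
    · rw [h] at hK1; simp only [Nat.cast_zero, zero_mul] at hK1; linarith
    · exact h
  obtain ⟨c, C, hc, hC, H⟩ := mainP K hKpos
  obtain ⟨hδ, h0, hF⟩ := hL
  have t1 : Tendsto (fun k => pd (δ k) a b + pd (δ k) b a) atTop (𝓝 (F a b + F b a)) :=
    (hF a b ha hb).add (hF b a hb ha)
  have t2 : Tendsto (fun k => (2 * C / a + 4 * C / b) * δ k) atTop (𝓝 0) := by
    have := h0.const_mul (2 * C / a + 4 * C / b)
    rwa [mul_zero] at this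
  have s0 : 0 < min (a / 4) (b / 4) := lt_min (by positivity) (by positivity)
  have key : ∀ᶠ k in atTop, 1 ≤ pd (δ k) a b + pd (δ k) b a ∧
      pd (δ k) a b + pd (δ k) b a ≤ 1 + (2 * C / a + 4 * C / b) * δ k := by
    filter_upwards [h0.eventually_lt_const s0] with k hk
    have d1 : δ k < a / 4 := hk.trans_le (min_le_left _ _)
    have d2 : δ k < b / 4 := hk.trans_le (min_le_right _ _)
    have dk := hδ k
    have ha1 := half_le ha dk (by linarith)
    have hb1 := half_le hb dk (by linarith)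
    have ha2 : 2 ≤ a / (2 * δ k) := by rw [le_div_iff₀ (by positivity)]; linarith
    have hb2 : 2 ≤ b / (2 * δ k) := by rw [le_div_iff₀ (by positivity)]; linarith
    have m2 : 2 ≤ ⌊a / δ k⌋₊ := by exact_mod_cast ha2.trans ha1
    have n2 : 2 ≤ ⌊b / δ k⌋₊ := by exact_mod_cast hb2.trans hb1
    have r1 : ⌊a / δ k⌋₊ ≤ K * ⌊b / δ k⌋₊ := floor_ratio hb ha dk (by linarith) (by linarith)
    have r2 : ⌊b / δ k⌋₊ ≤ K * ⌊a / δ k⌋₊ := floor_ratio ha hb dk (by linarith) (by linarith)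
    have e1 : pd (δ k) a b = 1 - P (⌊b / δ k⌋₊ + 1) (⌊a / δ k⌋₊ - 1) := P_dual (by omega)
    have mono : P (⌊b / δ k⌋₊ + 1) (⌊a / δ k⌋₊ - 1) ≤ P ⌊b / δ k⌋₊ ⌊a / δ k⌋₊ :=
      P_mono (by omega) (by omega) (by omega)
    have up : P ⌊b / δ k⌋₊ ⌊a / δ k⌋₊ - P (⌊b / δ k⌋₊ + 1) (⌊a / δ k⌋₊ - 1) ≤
        (2 * C / a + 4 * C / b) * δ k := by
      have u1 : P ⌊b / δ k⌋₊ ⌊a / δ k⌋₊ - P (⌊b / δ k⌋₊ + 1) ⌊a / δ k⌋₊ ≤ C / (⌊a / δ k⌋₊ : ℕ) :=
        Q_le (fun m n h1 h2 => (H m n h1 h2).2.1) hC (by omega) r1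
      have u2 : P (⌊b / δ k⌋₊ + 1) ⌊a / δ k⌋₊ - P (⌊b / δ k⌋₊ + 1) (⌊a / δ k⌋₊ - 1) ≤
          C / (⌊b / δ k⌋₊ : ℕ) := by
        have v1 : P (⌊b / δ k⌋₊ + 1) ⌊a / δ k⌋₊ = 1 - P (⌊a / δ k⌋₊ + 1) ⌊b / δ k⌋₊ :=
          P_dual (by omega)
        have v2 : P (⌊b / δ k⌋₊ + 1) (⌊a / δ k⌋₊ - 1) = 1 - P ⌊a / δ k⌋₊ ⌊b / δ k⌋₊ := by
          rw [P_dual (m := ⌊b / δ k⌋₊ + 1) (by omega)]
          have : ⌊a / δ k⌋₊ - 1 + 1 = ⌊a / δ k⌋₊ := by omega
          rw [this]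
          rfl
        have v3 : P ⌊a / δ k⌋₊ ⌊b / δ k⌋₊ - P (⌊a / δ k⌋₊ + 1) ⌊b / δ k⌋₊ ≤ C / (⌊b / δ k⌋₊ : ℕ) :=
          Q_le (fun m n h1 h2 => (H m n h1 h2).2.1) hC (by omega) r2
        linarith
      have u3 : C / ((⌊a / δ k⌋₊ : ℕ) : ℝ) ≤ 2 * C / a * δ k := by
        have : C / ((⌊a / δ k⌋₊ : ℕ) : ℝ) ≤ C / (a / (2 * δ k)) :=
          div_le_div_of_nonneg_left hC.le (by positivity) ha1
        refine this.trans (le_of_eq ?_)
        field_simp
      have u4 : C / ((⌊b / δ k⌋₊ : ℕ) : ℝ) ≤ 2 * C / b * δ k := by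
        have : C / ((⌊b / δ k⌋₊ : ℕ) : ℝ) ≤ C / (b / (2 * δ k)) :=
          div_le_div_of_nonneg_left hC.le (by positivity) hb1
        refine this.trans (le_of_eq ?_)
        field_simp
      have u5 : 0 ≤ 2 * C / b * δ k := by positivity
      have u6 : (2 * C / a + 4 * C / b) * δ k = 2 * C / a * δ k + 2 * C / b * δ k + 2 * C / b * δ k := by
        ring
      linarith
    have e2 : pd (δ k) b a = P ⌊b / δ k⌋₊ ⌊a / δ k⌋₊ := rfl
    constructor <;> linarith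
  have l1 : 1 ≤ F a b + F b a := ge_of_tendsto t1 (key.mono fun k hk => hk.1)
  have t3 : Tendsto (fun k => 1 + (2 * C / a + 4 * C / b) * δ k) atTop (𝓝 (1 + 0)) :=
    tendsto_const_nhds.add t2
  have l2 := le_of_tendsto_of_tendsto t1 t3 (key.mono fun k hk => hk.2)
  linarith

theorem lim_pos (hL : IsLim δ F) {a b : ℝ} (ha : 0 < a) (hb : 0 < b) : 0 < F a b := by
  obtain ⟨K, hK⟩ := exists_nat_ge (2 * a / b)
  rw [div_le_iff₀ hb] at hK
  have hKpos : 1 ≤ K := by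
    rcases Nat.eq_zero_or_pos K with h | h
    · rw [h] at hK; simp only [Nat.cast_zero, zero_mul] at hK; linarith
    · exact h
  obtain ⟨c, hc, H⟩ := hh_long K hKpos
  obtain ⟨hδ, h0, hF⟩ := hL
  refine hc.trans_le (ge_of_tendsto (hF a b ha hb) ?_)
  have s0 : 0 < min (a / 2) (b / 2) := lt_min (by positivity) (by positivity)
  filter_upwards [h0.eventually_lt_const s0] with k hk
  have d1 : δ k < a / 2 := hk.trans_le (min_le_left _ _)
  have d2 : δ k < b / 2 := hk.trans_le (min_le_right _ _)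
  have dk := hδ k
  have o1 := one_le ha dk d1.le
  have o2 := one_le hb dk d2.le
  have r1 : ⌊a / δ k⌋₊ ≤ K * ⌊b / δ k⌋₊ := floor_ratio hb ha dk (by linarith) (by linarith)
  exact H _ _ (by exact_mod_cast o2) (by exact_mod_cast o1) (by exact_mod_cast r1)

/-- The bounds of the derivative and its Lipschitz bound. -/
theorem lim_bounds {K : ℕ} {c C : ℝ} (hK : 1 ≤ K) (hC : 0 < C)
    (H : ∀ m n : ℕ, 1 ≤ n → n ≤ 4 * K * m →
      c * P m n ≤ n * (P m n - P (m+1) n) ∧ n * (P m n - P (m+1) n) ≤ C * P m n ∧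
      (n:ℝ)^2 * |P m n - 2 * P (m+1) n + P (m+2) n| ≤ C * P m n)
    (hL : IsLim δ F) {a b : ℝ} (ha : 0 < a) (hb : 0 < b) (hab : b ≤ K * a) :
    c * F a b / b ≤ -deriv (fun x => F x b) a ∧ -deriv (fun x => F x b) a ≤ C * F a b / b ∧
      ∀ a' : ℝ, 0 < a' → b ≤ K * a' →
        |deriv (fun x => F x b) a - deriv (fun x => F x b) a'| ≤ 16 * C * |a - a'| / b^2 := by
  have hL' := hL
  obtain ⟨hδ, h0, hF⟩ := hL
  have hKr : (1:ℝ) ≤ K := by exact_mod_cast hK
  have hD := (width_deriv hL' ha hb).2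
  have hfl : Tendsto (fun k => δ k * ((⌊b / δ k⌋₊ : ℕ) : ℝ)) atTop (𝓝 b) := by
    have l1 : Tendsto (fun k => b - δ k) atTop (𝓝 (b - 0)) := tendsto_const_nhds.sub h0
    rw [sub_zero] at l1
    refine tendsto_of_tendsto_of_tendsto_of_le_of_le l1 tendsto_const_nhds ?_ ?_
    · intro k
      have := (flo hb (hδ k)).2
      have h2 : b / δ k * δ k = b := div_mul_cancel₀ _ (hδ k).ne'
      have h3 := hδ k
      show b - δ k ≤ δ k * ((⌊b / δ k⌋₊ : ℕ) : ℝ)
      nlinarith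
    · intro k
      have := (flo hb (hδ k)).1
      have h2 : b / δ k * δ k = b := div_mul_cancel₀ _ (hδ k).ne'
      have h3 := hδ k
      show δ k * ((⌊b / δ k⌋₊ : ℕ) : ℝ) ≤ b
      nlinarith
  have hprod := hfl.mul hD
  have s0 : 0 < min (a / 2) (b / 2) := lt_min (by positivity) (by positivity)
  have key : ∀ᶠ k in atTop, c * pd (δ k) a b ≤ δ k * ((⌊b / δ k⌋₊ : ℕ) : ℝ) * qd (δ k) a b ∧
      δ k * ((⌊b / δ k⌋₊ : ℕ) : ℝ) * qd (δ k) a b ≤ C * pd (δ k) a b := by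
    filter_upwards [h0.eventually_lt_const s0] with k hk
    have d1 : δ k < a / 2 := hk.trans_le (min_le_left _ _)
    have d2 : δ k < b / 2 := hk.trans_le (min_le_right _ _)
    have dk := hδ k
    have o2 := one_le hb dk d2.le
    have r1 : ⌊b / δ k⌋₊ ≤ 4 * K * ⌊a / δ k⌋₊ := by
      have := floor_ratio (K := 4 * K) ha hb dk d1.le (by push_cast; nlinarith)
      exact this
    have hh := H _ _ o2 r1
    have e : δ k * ((⌊b / δ k⌋₊ : ℕ) : ℝ) * qd (δ k) a b =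
        ((⌊b / δ k⌋₊ : ℕ) : ℝ) * (P ⌊a / δ k⌋₊ ⌊b / δ k⌋₊ - P (⌊a / δ k⌋₊ + 1) ⌊b / δ k⌋₊) := by
      unfold qd Q
      field_simp
    rw [e]
    exact ⟨hh.1, hh.2.1⟩
  have b1 : c * F a b ≤ b * (-deriv (fun x => F x b) a) :=
    le_of_tendsto_of_tendsto ((hF a b ha hb).const_mul c) hprod (key.mono fun k hk => hk.1)
  have b2 : b * (-deriv (fun x => F x b) a) ≤ C * F a b :=
    le_of_tendsto_of_tendsto hprod ((hF a b ha hb).const_mul C) (key.mono fun k hk => hk.2)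
  refine ⟨?_, ?_, ?_⟩
  · rw [div_le_iff₀ hb]; linarith
  · rw [le_div_iff₀ hb]; linarith
  · intro a' ha' hab'
    obtain ⟨L, hL1, hL2⟩ := width_struct hC (fun m n h1 h2 => (H m n h1 h2).2.1)
      (fun m n h1 h2 => (H m n h1 h2).2.2) hL' (K := 4 * K) (x0 := b / (2 * K)) (by positivity) hb
      (by push_cast; rw [mul_div_assoc', le_div_iff₀ (by positivity)]; nlinarith)
    have x1 : b / (2 * K) < a := by
      rw [div_lt_iff₀ (by positivity)]; nlinarith
    have x2 : b / (2 * K) < a' := by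
      rw [div_lt_iff₀ (by positivity)]; nlinarith
    have e1 : L a = -deriv (fun x => F x b) a := tendsto_nhds_unique (hL1 a x1) hD
    have e2 : L a' = -deriv (fun x => F x b) a' :=
      tendsto_nhds_unique (hL1 a' x2) (width_deriv hL' ha' hb).2
    have h3 := lip_of_taylor (F := fun x => F x b) hL2 x1 x2
    rw [e1, e2] at h3
    have e3 : deriv (fun x => F x b) a - deriv (fun x => F x b) a' =
      -(-deriv (fun x => F x b) a - -deriv (fun x => F x b) a') := by ring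
    rw [e3, abs_neg]
    refine h3.trans (le_of_eq ?_)
    ring

end D0H96.RG
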